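import Pool.Agent.helper73.BV.Gauss
import Pool.Agent.helper66.VK.D2

/-!
# BVM A2: the Polya-Vinogradov inequality for primitive characters

Useful from `Pool/Agent/helper66/VK`: `D2_sin : |x| ≤ 1/2 → 4 * |x| ≤ ‖ee x - 1‖`, `F4_harm` (import `Pool.Agent.helper66.VK.F4`)
(`∑_{k=1}^n 1/k ≤ 1 + log n`).
-/

open Finset
open Pool.Agent.helper66.VK (ee)

namespace BVM

theorem PV_tele (θ : ℝ) (a b : ℕ) (hab : a ≤ b) :
    (ee θ - 1) * ∑ n ∈ Ioc a b, ee (n * θ) = ee ((b + 1) * θ) - ee ((a + 1) * θ) := by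
  induction b, hab using Nat.le_induction with
  | base => simp
  | succ b hab ih =>
    rw [Finset.sum_Ioc_succ_top (by omega), mul_add, ih]
    have h1 : ee ((((b + 1 : ℕ) : ℝ) + 1) * θ) = ee (((b + 1 : ℕ) : ℝ) * θ) * ee θ := by
      rw [← Pool.Agent.helper66.VK.ee_add]
      congr 1
      ring
    rw [h1]
    push_cast
    ring

theorem PV_norm (θ : ℝ) (a b : ℕ) : ‖ee θ - 1‖ * ‖∑ n ∈ Ioc a b, ee (n * θ)‖ ≤ 2 := by
  rcases le_or_gt a b with hab | hab
  · rw [← norm_mul, PV_tele θ a b hab]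
    refine le_trans (norm_sub_le _ _) ?_
    rw [Pool.Agent.helper66.VK.norm_ee, Pool.Agent.helper66.VK.norm_ee]
    norm_num
  · rw [Finset.Ioc_eq_empty (by omega)]
    simp

theorem PV_harm (q : ℕ) (hq : 1 < q) :
    ∑ j ∈ range (q - 1), (q : ℝ) / 2 * (1 / ((j + 1 : ℕ) : ℝ) + 1 / ((q : ℝ) - ((j + 1 : ℕ) : ℝ))) ≤
      q * (1 + Real.log q) := by
  have h1 : ∑ j ∈ range (q - 1), 1 / ((q : ℝ) - ((j + 1 : ℕ) : ℝ)) =
      ∑ j ∈ range (q - 1), 1 / ((j + 1 : ℕ) : ℝ) := by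
    rw [← Finset.sum_range_reflect (fun j => 1 / ((j + 1 : ℕ) : ℝ)) (q - 1)]
    refine Finset.sum_congr rfl fun j hj => ?_
    have hj' := Finset.mem_range.1 hj
    have h2 : (q : ℝ) - ((j + 1 : ℕ) : ℝ) = ((q - 1 - 1 - j + 1 : ℕ) : ℝ) := by
      have : q = (q - 1 - 1 - j + 1) + (j + 1) := by omega
      have h3 : (q : ℝ) = ((q - 1 - 1 - j + 1 : ℕ) : ℝ) + ((j + 1 : ℕ) : ℝ) := by
        rw [← Nat.cast_add, ← this]
      rw [h3]
      ring
    rw [h2]
  have h4 : ∑ j ∈ range (q - 1), 1 / ((j + 1 : ℕ) : ℝ) ≤ 1 + Real.log ((q - 1 : ℕ) : ℝ) := by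
    have := harmonic_le_one_add_log (q - 1)
    rw [harmonic] at this
    push_cast at this ⊢
    simpa [one_div] using this
  have h5 : Real.log ((q - 1 : ℕ) : ℝ) ≤ Real.log q := by
    apply Real.log_le_log
    · have : 0 < q - 1 := by omega
      exact_mod_cast this
    · have : q - 1 ≤ q := by omega
      exact_mod_cast this
  rw [← Finset.mul_sum, Finset.sum_add_distrib, h1]
  have h6 : (0 : ℝ) < q := by
    have : 0 < q := by omega
    exact_mod_cast this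
  nlinarith

/-- Geometric sum: for `0 < h < q`: `|∑_{a < n ≤ b} e(n h/q)| ≤ (q/2)(1/h + 1/(q-h))`.
Proof.  `(e(θ) - 1) ∑_{a<n≤b} e(n θ) = e((b+1) θ) - e((a+1) θ)` has norm `≤ 2` (induction on `b` or
`Finset.sum_range_succ`).  `θ = h/q`: if `h ≤ q/2`, `‖e(θ) - 1‖ ≥ 4 h/q` (`D2_sin` at `x = h/q`), else
`e(h/q) = e(h/q - 1)`, `|h/q - 1| = (q-h)/q ≤ 1/2`, `‖e(θ) - 1‖ ≥ 4 (q-h)/q`.  So the sum is
`≤ q/(2h)` or `≤ q/(2(q-h))`, both at most the right side. -/
theorem geom_bound (q h a b : ℕ) (h0 : 0 < h) (hq : h < q) :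
    ‖∑ n ∈ Ioc a b, ee (n * ((h : ℝ) / q))‖ ≤ (q : ℝ) / 2 * (1 / h + 1 / ((q : ℝ) - h)) := by
  have hh : (0 : ℝ) < h := by exact_mod_cast h0
  have hqh : (0 : ℝ) < (q : ℝ) - h := by
    have : (h : ℝ) < q := by exact_mod_cast hq
    linarith
  have hq0 : (0 : ℝ) < q := by linarith
  have hN := PV_norm ((h : ℝ) / q) a b
  obtain ⟨S, hS⟩ : ∃ S, S = ‖∑ n ∈ Ioc a b, ee (n * ((h : ℝ) / q))‖ := ⟨_, rfl⟩
  rw [← hS] at hN ⊢
  have hS0 : 0 ≤ S := by rw [hS]; exact norm_nonneg _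
  rcases le_or_gt ((h : ℝ) / q) (1 / 2) with hle | hgt
  · have h1 := Pool.Agent.helper66.VK.D2_sin ((h : ℝ) / q)
      (by rw [abs_of_pos (div_pos hh hq0)]; exact hle)
    rw [abs_of_pos (div_pos hh hq0)] at h1
    have h2 : 4 * ((h : ℝ) / q) * S ≤ 2 := le_trans (mul_le_mul_of_nonneg_right h1 hS0) hN
    have h3 : S ≤ (q : ℝ) / 2 * (1 / h) := by
      have h4 : S = (4 * ((h : ℝ) / q) * S) * ((q : ℝ) / 4 * (1 / h)) := by
        field_simp
      rw [h4]
      calc (4 * ((h : ℝ) / q) * S) * ((q : ℝ) / 4 * (1 / h))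
          ≤ 2 * ((q : ℝ) / 4 * (1 / h)) := by
            apply mul_le_mul_of_nonneg_right h2
            positivity
        _ = (q : ℝ) / 2 * (1 / h) := by ring
    have h5 : 0 ≤ (q : ℝ) / 2 * (1 / ((q : ℝ) - h)) := by positivity
    rw [mul_add]
    linarith
  · have h0' : ee ((h : ℝ) / q) = ee ((h : ℝ) / q - 1) := by
      rw [Pool.Agent.helper66.VK.ee_sub]
      have := Pool.Agent.helper66.VK.ee_int (-1)
      push_cast at this
      rw [this, mul_one]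
    have hlt : (h : ℝ) / q < 1 := by
      rw [div_lt_one hq0]; linarith
    have habs : |(h : ℝ) / q - 1| = 1 - (h : ℝ) / q := by
      rw [abs_of_neg (by linarith)]; ring
    have h1 := Pool.Agent.helper66.VK.D2_sin ((h : ℝ) / q - 1)
      (by rw [habs]; linarith)
    rw [habs, ← h0'] at h1
    have h2 : 4 * (1 - (h : ℝ) / q) * S ≤ 2 := le_trans (mul_le_mul_of_nonneg_right h1 hS0) hN
    have h1q : 1 - (h : ℝ) / q = ((q : ℝ) - h) / q := by field_simp
    rw [h1q] at h2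
    have h3 : S ≤ (q : ℝ) / 2 * (1 / ((q : ℝ) - h)) := by
      have hne : (q : ℝ) - h ≠ 0 := hqh.ne'
      have h4 : S = (4 * (((q : ℝ) - h) / q) * S) * ((q : ℝ) / 4 * (1 / ((q : ℝ) - h))) := by
        field_simp
      rw [h4]
      calc (4 * (((q : ℝ) - h) / q) * S) * ((q : ℝ) / 4 * (1 / ((q : ℝ) - h)))
          ≤ 2 * ((q : ℝ) / 4 * (1 / ((q : ℝ) - h))) := by
            apply mul_le_mul_of_nonneg_right h2
            positivity
        _ = (q : ℝ) / 2 * (1 / ((q : ℝ) - h)) := by ring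
    have h5 : 0 ≤ (q : ℝ) / 2 * (1 / (h : ℝ)) := by positivity
    rw [mul_add]
    linarith

/-- **Polya-Vinogradov** for a primitive character modulo `q > 1`, on any interval.
Proof.  By `chi_mul_tau`, `τ(χ⁻¹) ∑_{a<n≤b} χ(n) = ∑_{h<q,(h,q)=1} χ⁻¹(h) ∑_{a<n≤b} e(n h/q)`; `h = 0` does not occur since
`q > 1` (`(0,q) = q`); `|χ⁻¹(h)| ≤ 1` (`DirichletCharacter.norm_le_one`), so by `geom_bound` the norm is
`≤ ∑_{h=1}^{q-1} (q/2)(1/h + 1/(q-h)) = q ∑_{h=1}^{q-1} 1/h ≤ q (1 + log q)` (reflection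
`Finset.sum_bij h ↦ q - h`, `F4_harm`).  Divide by `|τ(χ⁻¹)| = √q` (`norm_tau_sq`, `isPrimitive_inv`). -/
theorem polya_vinogradov {q : ℕ} (hq : 1 < q) (χ : DirichletCharacter ℂ q) (hχ : χ.IsPrimitive)
    (a b : ℕ) :
    ‖∑ n ∈ Ioc a b, χ (n : ZMod q)‖ ≤ √q * (1 + Real.log q) := by
  have : NeZero q := ⟨by omega⟩
  have hq0 : (0 : ℝ) < q := by
    have : 0 < q := by omega
    exact_mod_cast this
  have hτ : ‖tau χ⁻¹‖ = √q := by
    rw [← norm_tau_sq χ⁻¹ (isPrimitive_inv χ hχ), Real.sqrt_sq (norm_nonneg _)]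
  have h1 : (∑ n ∈ Ioc a b, χ (n : ZMod q)) * tau χ⁻¹ =
      ∑ h ∈ (range q).filter (Nat.Coprime q),
        χ⁻¹ (h : ZMod q) * ∑ n ∈ Ioc a b, ee (n * ((h : ℝ) / q)) := by
    rw [Finset.sum_mul, Finset.sum_congr rfl fun n _ => chi_mul_tau χ hχ n, Finset.sum_comm]
    exact Finset.sum_congr rfl fun h _ => (Finset.mul_sum _ _ _).symm
  have h2 : ‖(∑ n ∈ Ioc a b, χ (n : ZMod q)) * tau χ⁻¹‖ ≤ q * (1 + Real.log q) := by
    rw [h1]
    refine le_trans ?_ (PV_harm q hq)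
    have hsub : (range q).filter (Nat.Coprime q) ⊆ (range (q - 1)).image (fun j : ℕ => j + 1) := by
      intro h hh
      rw [Finset.mem_filter, Finset.mem_range] at hh
      have h0 : h ≠ 0 := by
        rintro rfl
        have := hh.2
        rw [Nat.coprime_zero_right] at this
        omega
      exact Finset.mem_image.2 ⟨h - 1, Finset.mem_range.2 (by omega), by omega⟩
    have h3 : ∑ j ∈ range (q - 1),
        (q : ℝ) / 2 * (1 / ((j + 1 : ℕ) : ℝ) + 1 / ((q : ℝ) - ((j + 1 : ℕ) : ℝ))) =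
        ∑ h ∈ (range (q - 1)).image (fun j : ℕ => j + 1),
          (q : ℝ) / 2 * (1 / ((h : ℕ) : ℝ) + 1 / ((q : ℝ) - ((h : ℕ) : ℝ))) := by
      rw [Finset.sum_image]
      intro x _ y _ hxy
      exact Nat.succ_injective hxy
    rw [h3]
    refine le_trans (norm_sum_le _ _) ?_
    refine le_trans ?_ (Finset.sum_le_sum_of_subset_of_nonneg hsub ?_)
    · refine Finset.sum_le_sum fun h hh => ?_
      have hm := Finset.mem_image.1 (hsub hh)
      obtain ⟨j, hj, hjh⟩ := hm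
      have hj' := Finset.mem_range.1 hj
      rw [norm_mul]
      refine le_trans (mul_le_mul_of_nonneg_right (DirichletCharacter.norm_le_one χ⁻¹ _)
        (norm_nonneg _)) ?_
      rw [one_mul]
      exact geom_bound q h a b (by omega) (by omega)
    · intro h hh _
      obtain ⟨j, hj, hjh⟩ := Finset.mem_image.1 hh
      have hj' := Finset.mem_range.1 hj
      have hlt : (h : ℝ) < q := by
        have : h < q := by omega
        exact_mod_cast this
      have : 0 < (q : ℝ) - h := by linarith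
      positivity
  rw [norm_mul, hτ] at h2
  have h4 : (0 : ℝ) < √q := Real.sqrt_pos.2 hq0
  have h5 : (q : ℝ) = √q * √q := (Real.mul_self_sqrt hq0.le).symm
  have h6 : ‖∑ n ∈ Ioc a b, χ (n : ZMod q)‖ * √q ≤ (√q * (1 + Real.log q)) * √q := by
    calc _ ≤ (q : ℝ) * (1 + Real.log q) := h2
      _ = (√q * √q) * (1 + Real.log q) := by rw [← h5]
      _ = _ := by ring
  exact le_of_mul_le_mul_right h6 h4

end BVM
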