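import Pool.Agent.helper73.BV.Gauss

/-!
# BVM A2, LS6 (one modulus): from primitive characters to additive characters
-/

open Finset
open Pool.Agent.helper66.VK (ee)

namespace BVM

private theorem dual_inv {q : ℕ} [NeZero q] (χ : DirichletCharacter ℂ q) {a : ZMod q}
    (ha : IsUnit a) : χ⁻¹ a = χ a⁻¹ := by
  have h1 : χ a⁻¹ * χ a = 1 := by
    rw [← map_mul, ZMod.inv_mul_of_unit a ha, map_one]
  have h2 : χ a ≠ 0 := (ha.map χ).ne_zero
  rw [MulChar.inv_apply_eq_inv']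
  exact (eq_inv_of_mul_eq_one_left h1).symm

/-- Orthogonality of characters, quadratic form: for a function `g` on the residues `h < q`, `(h,q) = 1`,
`∑_{χ mod q} |∑_h χ⁻¹(h) g(h)|^2 = φ(q) ∑_h |g(h)|^2`.
Proof: expand, `∑_χ χ⁻¹(h) conj(χ⁻¹(h')) = ∑_χ χ(h') χ(h)⁻¹ = φ(q) [h = h']`
(Mathlib: `DirichletCharacter.sum_char_inv_mul_char_eq`), and `conj (χ u) = χ⁻¹ u` on units
(`DirichletCharacter` values of units are roots of unity: `MulChar.star_apply`/`star_eq_inv`); `h < q`, `h' < q` and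
`(h : ZMod q) = h'` imply `h = h'`. -/
theorem char_parseval {q : ℕ} [NeZero q] (g : ℕ → ℂ) :
    ∑ χ : DirichletCharacter ℂ q,
        ‖∑ h ∈ (range q).filter (Nat.Coprime q), χ⁻¹ (h : ZMod q) * g h‖ ^ 2
      = (q.totient : ℝ) * ∑ h ∈ (range q).filter (Nat.Coprime q), ‖g h‖ ^ 2 := by
  classical
  set R := (range q).filter (Nat.Coprime q) with hR
  have hunit : ∀ h ∈ R, IsUnit (h : ZMod q) := by
    intro h hh
    rw [ZMod.isUnit_iff_coprime]
    exact (Finset.mem_filter.1 hh).2.symm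
  have hlt : ∀ h ∈ R, h < q := fun h hh => Finset.mem_range.1 (Finset.mem_filter.1 hh).1
  have hsq : ∀ z : ℂ, ((‖z‖ ^ 2 : ℝ) : ℂ) = z * star z := by
    intro z
    rw [Complex.ofReal_pow]
    exact (Complex.mul_conj' z).symm
  have key : ((∑ χ : DirichletCharacter ℂ q,
        ‖∑ h ∈ R, χ⁻¹ (h : ZMod q) * g h‖ ^ 2 : ℝ) : ℂ)
      = (((q.totient : ℝ) * ∑ h ∈ R, ‖g h‖ ^ 2 : ℝ) : ℂ) := by
    rw [Complex.ofReal_sum, Complex.ofReal_mul, Complex.ofReal_sum]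
    have h1 : ∀ χ : DirichletCharacter ℂ q,
        ((‖∑ h ∈ R, χ⁻¹ (h : ZMod q) * g h‖ ^ 2 : ℝ) : ℂ)
          = ∑ h ∈ R, ∑ k ∈ R, (g h * star (g k)) * (χ ((h : ZMod q)⁻¹) * χ (k : ZMod q)) := by
      intro χ
      rw [hsq, star_sum, Finset.sum_mul_sum]
      refine Finset.sum_congr rfl fun h hh => Finset.sum_congr rfl fun k hk => ?_
      rw [star_mul', MulChar.star_apply', inv_inv, dual_inv χ (hunit h hh)]
      ring
    rw [Finset.sum_congr rfl fun χ _ => h1 χ, Finset.sum_comm, Finset.mul_sum]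
    refine Finset.sum_congr rfl fun h hh => ?_
    rw [Finset.sum_comm]
    have h2 : ∀ k ∈ R, ∑ χ : DirichletCharacter ℂ q,
        (g h * star (g k)) * (χ ((h : ZMod q)⁻¹) * χ (k : ZMod q))
          = if k = h then (q.totient : ℂ) * (g h * star (g h)) else 0 := by
      intro k hk
      rw [← Finset.mul_sum, DirichletCharacter.sum_char_inv_mul_char_eq ℂ (hunit h hh)]
      by_cases hkh : k = h
      · subst hkh
        rw [if_pos rfl, if_pos rfl]
        ring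
      · rw [if_neg hkh, if_neg, mul_zero]
        intro h3
        rw [ZMod.natCast_eq_natCast_iff', Nat.mod_eq_of_lt (hlt h hh),
          Nat.mod_eq_of_lt (hlt k hk)] at h3
        exact hkh h3.symm
    rw [Finset.sum_congr rfl h2, Finset.sum_ite_eq' R h, if_pos hh, hsq]
    norm_num
  exact_mod_cast key

/-- **One modulus.**
Proof.  For a primitive `χ`, with `T(h) = ∑_n a_n e(n h/q)`: by `chi_mul_tau`
`τ(χ⁻¹) ∑_n a_n χ(n) = ∑_h χ⁻¹(h) T(h)`, so by `norm_tau_sq` (for `χ⁻¹`) `q |∑_n a_n χ(n)|^2 =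
|∑_h χ⁻¹(h) T(h)|^2`.  Sum over the primitive `χ`, enlarge to all characters (`mem_prim`, nonnegative terms), use
`char_parseval`, divide by `φ(q) > 0`. -/
theorem dual_one (q : ℕ) (hq : 1 ≤ q) (S : Finset ℕ) (a : ℕ → ℂ) :
    ∑ χ ∈ prim q, ((q : ℝ) / q.totient) * ‖∑ n ∈ S, a n * χ (n : ZMod q)‖ ^ 2
      ≤ ∑ h ∈ (range q).filter (Nat.Coprime q), ‖∑ n ∈ S, a n * ee (n * ((h : ℝ) / q))‖ ^ 2 := by
  classical
  have : NeZero q := ⟨by omega⟩
  have hφ : (0 : ℝ) < q.totient := by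
    have := Nat.totient_pos.2 (by omega : 0 < q)
    exact_mod_cast this
  set R := (range q).filter (Nat.Coprime q) with hR
  set T : ℕ → ℂ := fun h => ∑ n ∈ S, a n * ee (n * ((h : ℝ) / q)) with hT
  have h1 : ∀ χ ∈ prim q, (q : ℝ) * ‖∑ n ∈ S, a n * χ (n : ZMod q)‖ ^ 2
      = ‖∑ h ∈ R, χ⁻¹ (h : ZMod q) * T h‖ ^ 2 := by
    intro χ hχ
    have hp : χ.IsPrimitive := (mem_prim (by omega) χ).1 hχ
    have h2 : (∑ n ∈ S, a n * χ (n : ZMod q)) * tau χ⁻¹ = ∑ h ∈ R, χ⁻¹ (h : ZMod q) * T h := by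
      rw [Finset.sum_mul]
      have h3 : ∀ n ∈ S, a n * χ (n : ZMod q) * tau χ⁻¹
          = ∑ h ∈ R, χ⁻¹ (h : ZMod q) * (a n * ee (n * ((h : ℝ) / q))) := by
        intro n _
        rw [mul_assoc, chi_mul_tau χ hp n, Finset.mul_sum]
        refine Finset.sum_congr rfl fun h _ => ?_
        ring
      rw [Finset.sum_congr rfl h3, Finset.sum_comm]
      refine Finset.sum_congr rfl fun h _ => ?_
      rw [hT, Finset.mul_sum]
    rw [← h2, norm_mul, mul_pow, norm_tau_sq χ⁻¹ (isPrimitive_inv χ hp)]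
    ring
  have h4 : ∑ χ ∈ prim q, (q : ℝ) * ‖∑ n ∈ S, a n * χ (n : ZMod q)‖ ^ 2
      ≤ (q.totient : ℝ) * ∑ h ∈ R, ‖T h‖ ^ 2 := by
    rw [Finset.sum_congr rfl h1, ← char_parseval T]
    exact Finset.sum_le_sum_of_subset_of_nonneg (Finset.subset_univ _)
      (fun χ _ _ => by positivity)
  have h5 : ∑ χ ∈ prim q, ((q : ℝ) / q.totient) * ‖∑ n ∈ S, a n * χ (n : ZMod q)‖ ^ 2
      = (∑ χ ∈ prim q, (q : ℝ) * ‖∑ n ∈ S, a n * χ (n : ZMod q)‖ ^ 2) / q.totient := by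
    rw [Finset.sum_div]
    refine Finset.sum_congr rfl fun χ _ => ?_
    ring
  rw [h5, div_le_iff₀ hφ]
  linarith

end BVM
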