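import Pool.Agent.helper66.VK.F1
import Pool.Agent.helper66.VK.F4

/-!
# BVM A2: mean values of the coefficients
-/

open Finset ArithmeticFunction
open Pool.Agent.helper66.VK (bV)

namespace BVM

theorem Coef_sum_tau_div (n : ℕ) :
    ∑ d ∈ Icc 1 n, (d.divisors.card : ℝ) / d ≤ (1 + Real.log n) ^ 2 := by
  have hL := Real.log_natCast_nonneg n
  have h0 : ∑ d ∈ Icc 1 n, (d.divisors.card : ℝ) / d =
      ∑ d ∈ Icc 1 n, (d.divisors.card : ℝ) * (1 / d) :=
    sum_congr rfl fun d _ => by rw [mul_one_div]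
  rw [h0, Pool.Agent.helper66.VK.F4_swap n fun m => (1 / m : ℝ)]
  calc ∑ d ∈ Icc 1 n, ∑ k ∈ Icc 1 (n / d), (1 / ((d * k : ℕ) : ℝ))
      ≤ ∑ d ∈ Icc 1 n, ∑ k ∈ Icc 1 n, (1 / ((d * k : ℕ) : ℝ)) := by
        refine sum_le_sum fun d _ => ?_
        refine sum_le_sum_of_subset_of_nonneg ?_ fun k _ _ => by positivity
        exact Icc_subset_Icc_right (Nat.div_le_self n d)
    _ = (∑ d ∈ Icc 1 n, (1 : ℝ) / d) * ∑ k ∈ Icc 1 n, (1 : ℝ) / k := by
        rw [sum_mul_sum]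
        refine sum_congr rfl fun d _ => sum_congr rfl fun k _ => ?_
        push_cast
        rw [one_div_mul_one_div]
    _ ≤ (1 + Real.log n) * (1 + Real.log n) :=
        mul_le_mul (Pool.Agent.helper66.VK.F4_harm n) (Pool.Agent.helper66.VK.F4_harm n)
          (sum_nonneg fun k _ => by positivity) (by linarith)
    _ = (1 + Real.log n) ^ 2 := by ring

/-- `∑_{m ≤ n} τ(m)^2/m ≤ (1 + log n)^4`.
Proof.  `F4_swap` (with `f m = τ(m)/m`): the sum is `∑_{d ≤ n} ∑_{k ≤ n/d} τ(dk)/(dk) ≤ (∑_{d ≤ n} τ(d)/d)^2`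
(`F4_tau_mul`; enlarge `k ≤ n/d` to `k ≤ n`), and `∑_{d≤n} τ(d)/d ≤ (∑_{d ≤ n} 1/d)^2 ≤ (1 + log n)^2` in the same way
(this is inside the proof of `tau_sq` in `Pool/Agent/helper66/VK/F4.lean`; `F4_harm`). -/
theorem sum_tau_sq_div (n : ℕ) :
    ∑ m ∈ Icc 1 n, ((m.divisors.card : ℝ)) ^ 2 / m ≤ (1 + Real.log n) ^ 4 := by
  have hL := Real.log_natCast_nonneg n
  have h0 : ∑ m ∈ Icc 1 n, ((m.divisors.card : ℝ)) ^ 2 / m =
      ∑ m ∈ Icc 1 n, (m.divisors.card : ℝ) * ((m.divisors.card : ℝ) / m) :=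
    sum_congr rfl fun m _ => by rw [sq, mul_div_assoc]
  have h1 := Coef_sum_tau_div n
  have hnn : 0 ≤ ∑ d ∈ Icc 1 n, (d.divisors.card : ℝ) / d :=
    sum_nonneg fun k _ => by positivity
  rw [h0, Pool.Agent.helper66.VK.F4_swap n fun m => ((m.divisors.card : ℝ) / m : ℝ)]
  calc ∑ d ∈ Icc 1 n, ∑ k ∈ Icc 1 (n / d), (((d * k).divisors.card : ℝ) / ((d * k : ℕ) : ℝ))
      ≤ ∑ d ∈ Icc 1 n, ∑ k ∈ Icc 1 n, (((d * k).divisors.card : ℝ) / ((d * k : ℕ) : ℝ)) := by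
        refine sum_le_sum fun d _ => ?_
        refine sum_le_sum_of_subset_of_nonneg ?_ fun k _ _ => by positivity
        exact Icc_subset_Icc_right (Nat.div_le_self n d)
    _ ≤ ∑ d ∈ Icc 1 n, ∑ k ∈ Icc 1 n, ((d.divisors.card : ℝ) / d) * ((k.divisors.card : ℝ) / k) := by
        refine sum_le_sum fun d _ => sum_le_sum fun k _ => ?_
        rw [div_mul_div_comm]
        push_cast
        exact div_le_div_of_nonneg_right (Pool.Agent.helper66.VK.F4_tau_mul d k) (by positivity)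
    _ = (∑ d ∈ Icc 1 n, (d.divisors.card : ℝ) / d) * ∑ k ∈ Icc 1 n, (k.divisors.card : ℝ) / k := by
        rw [sum_mul_sum]
    _ ≤ (1 + Real.log n) ^ 2 * (1 + Real.log n) ^ 2 := mul_le_mul h1 h1 hnn (by positivity)
    _ = (1 + Real.log n) ^ 4 := by ring

/-- For the coefficients of the type II sums: `∑_{M < m ≤ 2M} |b_U(m)|^2/m ≤ (1 + log (2M))^4`
(`abs_bV_le`, `sum_tau_sq_div`). -/
theorem sum_bV_sq_div (U M : ℕ) :
    ∑ m ∈ Ioc M (2 * M), ‖((bV U m : ℝ) : ℂ)‖ ^ 2 / m ≤ (1 + Real.log (2 * M)) ^ 4 := by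
  have h1 := sum_tau_sq_div (2 * M)
  push_cast at h1
  refine le_trans ?_ h1
  calc ∑ m ∈ Ioc M (2 * M), ‖((bV U m : ℝ) : ℂ)‖ ^ 2 / m
      ≤ ∑ m ∈ Ioc M (2 * M), ((m.divisors.card : ℝ)) ^ 2 / m := by
        refine sum_le_sum fun m _ => ?_
        refine div_le_div_of_nonneg_right ?_ (Nat.cast_nonneg m)
        rw [Complex.norm_real, Real.norm_eq_abs]
        exact pow_le_pow_left₀ (abs_nonneg _) (Pool.Agent.helper66.VK.abs_bV_le U m) 2
    _ ≤ ∑ m ∈ Icc 1 (2 * M), ((m.divisors.card : ℝ)) ^ 2 / m := by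
        refine sum_le_sum_of_subset_of_nonneg ?_ fun k _ _ => by positivity
        intro m hm
        rw [mem_Ioc] at hm
        rw [mem_Icc]
        omega

/-- `∑_{V < k ≤ K} Λ(k)^2/k ≤ (1 + log K)^3`, written with the coefficients cut at `V`.
Proof: `Λ k ≤ log k ≤ log K` (`vonMangoldt_le_log`) and `F4_harm`. -/
theorem sum_vM_sq_div (V K : ℕ) :
    ∑ k ∈ Ioc 0 K, ‖((if V < k then vonMangoldt k else 0 : ℝ) : ℂ)‖ ^ 2 / k ≤ (1 + Real.log K) ^ 3 := by
  have hL := Real.log_natCast_nonneg K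
  have hI : Ioc 0 K = Icc 1 K := by
    ext k
    rw [mem_Ioc, mem_Icc]
    omega
  calc ∑ k ∈ Ioc 0 K, ‖((if V < k then vonMangoldt k else 0 : ℝ) : ℂ)‖ ^ 2 / k
      ≤ ∑ k ∈ Ioc 0 K, Real.log K ^ 2 * ((1 : ℝ) / k) := by
        refine sum_le_sum fun k hk => ?_
        rw [mem_Ioc] at hk
        have hk0 : (0 : ℝ) < k := by exact_mod_cast hk.1
        rw [mul_one_div]
        refine div_le_div_of_nonneg_right ?_ (Nat.cast_nonneg k)
        rw [Complex.norm_real, Real.norm_eq_abs]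
        refine pow_le_pow_left₀ (abs_nonneg _) ?_ 2
        split_ifs with h
        · rw [abs_of_nonneg vonMangoldt_nonneg]
          exact vonMangoldt_le_log.trans (Real.log_le_log hk0 (by exact_mod_cast hk.2))
        · rw [abs_zero]
          exact hL
    _ = Real.log K ^ 2 * ∑ k ∈ Icc 1 K, (1 : ℝ) / k := by rw [hI, mul_sum]
    _ ≤ (1 + Real.log K) ^ 2 * (1 + Real.log K) := by
        refine mul_le_mul (pow_le_pow_left₀ hL (by linarith) 2) (Pool.Agent.helper66.VK.F4_harm K)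
          (sum_nonneg fun k _ => by positivity) (by positivity)
    _ = (1 + Real.log K) ^ 3 := by ring

end BVM
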