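import Pool.Agent.helper73.BV.TypeII

/-!
# BVM A2: the dyadic mean value theorem `bvDyadic`
-/

open Finset ArithmeticFunction

namespace BVM

/-- Choice of the parameter `U = ⌊x^(1/10)⌋₊`.
Proof: `x^(1/10) ≥ 1`, so `1 ≤ U ≤ x^(1/10) ≤ U + 1 ≤ 2 U`; `x/√U ≤ x √2/x^(1/20) ≤ 2 x^(19/20)`; `U^2 ≤ x^(1/5)`;
`D^(3/2) ≤ x^(3/4)` (`D √D = (√D)^3`, `√D ≤ x^(1/4)`), so `D^2 √D U^2 ≤ D x^(3/4+1/5) = D x^(19/20)`;
`log U ≤ log x`. -/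
theorem param (x : ℝ) (hx : 3 ≤ x) (D : ℕ) (hDx : (D : ℝ) ≤ √x) :
    1 ≤ ⌊x ^ (1 / 10 : ℝ)⌋₊ ∧ x / √(⌊x ^ (1 / 10 : ℝ)⌋₊ : ℝ) ≤ 2 * x ^ (19 / 20 : ℝ) ∧
      (D : ℝ) ^ 2 * √D * (⌊x ^ (1 / 10 : ℝ)⌋₊ : ℝ) ^ 2 ≤ D * x ^ (19 / 20 : ℝ) ∧
      2 * Real.log (⌊x ^ (1 / 10 : ℝ)⌋₊ : ℝ) ≤ Real.log x := by
  have hx0 : 0 < x := by linarith
  have hx1 : 1 ≤ x := by linarith
  have h10 : 1 ≤ x ^ (1 / 10 : ℝ) := Real.one_le_rpow hx1 (by norm_num)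
  have hU1 : 1 ≤ ⌊x ^ (1 / 10 : ℝ)⌋₊ := Nat.le_floor (by simpa using h10)
  set U : ℕ := ⌊x ^ (1 / 10 : ℝ)⌋₊ with hU
  have hUr : (1 : ℝ) ≤ U := by exact_mod_cast hU1
  have hUle : (U : ℝ) ≤ x ^ (1 / 10 : ℝ) := Nat.floor_le (by positivity)
  have hUlt : x ^ (1 / 10 : ℝ) < U + 1 := Nat.lt_floor_add_one _
  have hUge : x ^ (1 / 10 : ℝ) ≤ 4 * U := by linarith
  have h20 : x ^ (1 / 20 : ℝ) ≤ 2 * √(U : ℝ) := by
    have e1 : x ^ (1 / 20 : ℝ) = √(x ^ (1 / 10 : ℝ)) := by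
      rw [Real.sqrt_eq_rpow, ← Real.rpow_mul hx0.le]; norm_num
    have e2 : 2 * √(U : ℝ) = √(4 * U) := by
      rw [Real.sqrt_mul (by norm_num : (0:ℝ) ≤ 4)]
      congr 1
      rw [show (4 : ℝ) = 2 ^ 2 by norm_num, Real.sqrt_sq (by norm_num)]
    rw [e1, e2]
    exact Real.sqrt_le_sqrt hUge
  have hxx : x = x ^ (19 / 20 : ℝ) * x ^ (1 / 20 : ℝ) := by
    rw [← Real.rpow_add hx0]; norm_num
  have hsU : 0 < √(U : ℝ) := Real.sqrt_pos.mpr (by linarith)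
  refine ⟨hU1, ?_, ?_, ?_⟩
  · rw [div_le_iff₀ hsU]
    calc x = x ^ (19 / 20 : ℝ) * x ^ (1 / 20 : ℝ) := hxx
      _ ≤ x ^ (19 / 20 : ℝ) * (2 * √(U : ℝ)) := by gcongr
      _ = 2 * x ^ (19 / 20 : ℝ) * √(U : ℝ) := by ring
  · have hD2 : (D : ℝ) ≤ x ^ (1 / 2 : ℝ) := by rwa [← Real.sqrt_eq_rpow]
    have hD4 : √(D : ℝ) ≤ x ^ (1 / 4 : ℝ) := by
      calc √(D : ℝ) ≤ √(x ^ (1 / 2 : ℝ)) := Real.sqrt_le_sqrt hD2
        _ = x ^ (1 / 4 : ℝ) := by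
          rw [Real.sqrt_eq_rpow, ← Real.rpow_mul hx0.le]; norm_num
    have hU2 : (U : ℝ) ^ 2 ≤ x ^ (1 / 5 : ℝ) := by
      calc (U : ℝ) ^ 2 ≤ (x ^ (1 / 10 : ℝ)) ^ 2 := by gcongr
        _ = x ^ (1 / 5 : ℝ) := by
          rw [← Real.rpow_natCast, ← Real.rpow_mul hx0.le]; norm_num
    have e : x ^ (19 / 20 : ℝ) = x ^ (1 / 2 : ℝ) * x ^ (1 / 4 : ℝ) * x ^ (1 / 5 : ℝ) := by
      rw [← Real.rpow_add hx0, ← Real.rpow_add hx0]; norm_num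
    calc (D : ℝ) ^ 2 * √D * (U : ℝ) ^ 2 = D * ((D : ℝ) * √D * (U : ℝ) ^ 2) := by ring
      _ ≤ D * (x ^ (1 / 2 : ℝ) * x ^ (1 / 4 : ℝ) * x ^ (1 / 5 : ℝ)) := by gcongr
      _ = D * x ^ (19 / 20 : ℝ) := by rw [e]
  · have hlog : Real.log (U : ℝ) ≤ (1 / 10 : ℝ) * Real.log x := by
      rw [← Real.log_rpow hx0]
      exact Real.log_le_log (by linarith) hUle
    have hl0 : 0 ≤ Real.log x := Real.log_nonneg hx1
    linarith

theorem Dyadic_one_le_log (x : ℝ) (hx : 3 ≤ x) : 1 ≤ Real.log x := by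
  rw [Real.le_log_iff_exp_le (by linarith)]
  have := Real.exp_one_lt_d9
  linarith

/-- The type I part of one character, `D < q ≤ 2D`: with `U = V ≥ 1`, `L = log x ≥ 1`, `2 log U ≤ L`,
`1 ≤ D ≤ √x`: `V log V + √q (1+log q)(2 U L + U V log (U V)) ≤ 20 √D L^2 U^2`.
Proof: `√q ≤ √(2D) ≤ 2 √D`; `log q ≤ log (2D) ≤ log 2 + L/2`, `1 + log q ≤ 3 L` (`L ≥ log 3 > 1`); `log (U U) ≤ L`;
so the left side is `≤ U^2 L + 2 √D * 3 L * (2 U^2 L + U^2 L) ≤ 19 √D L^2 U^2`. -/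
theorem typeI_num (x : ℝ) (hx : 3 ≤ x) (D q U : ℕ) (hD : 1 ≤ D) (hDx : (D : ℝ) ≤ √x) (hU : 1 ≤ U)
    (hUx : 2 * Real.log U ≤ Real.log x) (hq : q ∈ Ioc D (2 * D)) :
    U * Real.log U + √q * (1 + Real.log q) * (2 * U * Real.log x + U * U * Real.log (U * U))
      ≤ 20 * (√D * Real.log x ^ 2 * (U : ℝ) ^ 2) := by
  have hL1 := Dyadic_one_le_log x hx
  obtain ⟨hq1, hq2⟩ := Finset.mem_Ioc.mp hq
  have hqr : (q : ℝ) ≤ 2 * D := by exact_mod_cast hq2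
  have hq0 : (0 : ℝ) < q := by
    have : 0 < q := by omega
    exact_mod_cast this
  have hDr : (1 : ℝ) ≤ D := by exact_mod_cast hD
  have hUr : (1 : ℝ) ≤ U := by exact_mod_cast hU
  have hlU : 0 ≤ Real.log (U : ℝ) := Real.log_nonneg hUr
  set L := Real.log x with hL
  have hsD : 1 ≤ √(D : ℝ) := Real.one_le_sqrt.mpr hDr
  have hsq : √(q : ℝ) ≤ 2 * √(D : ℝ) := by
    have e2 : 2 * √(D : ℝ) = √(4 * D) := by
      rw [Real.sqrt_mul (by norm_num : (0:ℝ) ≤ 4)]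
      congr 1
      rw [show (4 : ℝ) = 2 ^ 2 by norm_num, Real.sqrt_sq (by norm_num)]
    rw [e2]
    exact Real.sqrt_le_sqrt (by linarith)
  have hlD : Real.log (D : ℝ) ≤ L / 2 := by
    have : Real.log (D : ℝ) ≤ Real.log (√x) := Real.log_le_log (by linarith) hDx
    rwa [Real.log_sqrt (by linarith)] at this
  have hlq : Real.log (q : ℝ) ≤ 1 + L / 2 := by
    have h1 : Real.log (q : ℝ) ≤ Real.log (2 * D) := Real.log_le_log hq0 hqr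
    rw [Real.log_mul (by norm_num) (by linarith)] at h1
    have h2 : Real.log 2 ≤ 1 := by
      have := Real.log_two_lt_d9
      linarith
    linarith
  have hlq' : 1 + Real.log (q : ℝ) ≤ 3 * L := by linarith
  have hlq0 : 0 ≤ 1 + Real.log (q : ℝ) := by
    have : 0 ≤ Real.log (q : ℝ) := Real.log_nonneg (by
      have : 1 ≤ q := by omega
      exact_mod_cast this)
    linarith
  have hUU : Real.log ((U : ℝ) * U) = 2 * Real.log U := by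
    rw [Real.log_mul (by linarith) (by linarith)]; ring
  rw [hUU]
  have hU2 : (U : ℝ) ≤ (U : ℝ) ^ 2 := by nlinarith
  have a1 : 2 * (U : ℝ) * L + U * U * (2 * Real.log U) ≤ 3 * ((U : ℝ) ^ 2 * L) := by
    have b1 : (U : ℝ) * L ≤ (U : ℝ) ^ 2 * L := by gcongr
    have b2 : (U : ℝ) * U * (2 * Real.log U) ≤ (U : ℝ) * U * L := by gcongr
    nlinarith
  have a0 : 0 ≤ 2 * (U : ℝ) * L + U * U * (2 * Real.log U) := by positivity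
  have a2 : √(q : ℝ) * (1 + Real.log q) ≤ 2 * √(D : ℝ) * (3 * L) := by gcongr
  have a3 : √(q : ℝ) * (1 + Real.log q) * (2 * U * L + U * U * (2 * Real.log U))
      ≤ 2 * √(D : ℝ) * (3 * L) * (3 * ((U : ℝ) ^ 2 * L)) := by gcongr
  have a4 : (U : ℝ) * Real.log U ≤ √(D : ℝ) * L ^ 2 * (U : ℝ) ^ 2 := by
    have c1 : Real.log (U : ℝ) ≤ L := by linarith
    calc (U : ℝ) * Real.log U ≤ (U : ℝ) ^ 2 * L := by gcongr
      _ ≤ (U : ℝ) ^ 2 * L ^ 2 := by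
        have : L ≤ L ^ 2 := by nlinarith
        gcongr
      _ = 1 * L ^ 2 * (U : ℝ) ^ 2 := by ring
      _ ≤ √(D : ℝ) * L ^ 2 * (U : ℝ) ^ 2 := by gcongr
  have a5 : 0 ≤ √(D : ℝ) * L ^ 2 * (U : ℝ) ^ 2 := by positivity
  nlinarith

/-- **Dyadic mean value theorem for the Riesz sums over primitive characters.**

Proof.  `U = V = ⌊x^(1/10)⌋₊`, `L = log x ≥ 1`.  For `q ∈ Ioc D (2D)` (so `q > 1`), `χ ∈ prim q` (`mem_prim`):
`‖rieszChi χ u‖ ≤ T + ‖sumII χ U U u‖`, `T = 20 √D L^2 U^2` (`typeI_bound`, `typeI_num`).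
Sum over `χ` with the weight `q/φ(q)`: `(q/φ(q)) * card (prim q) * T ≤ q T ≤ 2 D T` (`card_prim_le`); sum over the `D` values
of `q`: `≤ 2 D^2 T ≤ 40 L^2 D^2 √D U^2 ≤ 40 L^2 D x^(19/20)` (`param`).
Type II: enlarge `Ioc D (2D)` to `Icc 1 (2D)`; `typeII_bound` with `R = 2D`:
`≤ 200 (1+L)^5 (x + 2 * 2D * 2 x^(19/20) + 4 D^2 √x)`, `(1+L)^5 ≤ 32 L^5 ≤ 32 L^6`.  So `C = 60000` works. -/
theorem bvDyadic : ∃ C : ℝ, ∀ (x : ℝ) (D : ℕ) (u : ℝ), 3 ≤ x → 1 ≤ D → (D : ℝ) ≤ √x → 0 < u → u ≤ x →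
    ∑ q ∈ Ioc D (2 * D), ∑ χ ∈ prim q, ((q : ℝ) / q.totient) * ‖rieszChi χ u‖
      ≤ C * Real.log x ^ 6 * (x + D * x ^ (19 / 20 : ℝ) + (D : ℝ) ^ 2 * √x) := by
  refine ⟨60000, ?_⟩
  intro x D u hx hD hDx hu hux
  have hL1 := Dyadic_one_le_log x hx
  obtain ⟨p1, p2, p3, p4⟩ := param x hx D hDx
  set U : ℕ := ⌊x ^ (1 / 10 : ℝ)⌋₊ with hU
  set L := Real.log x with hL
  have hx1 : (1 : ℝ) ≤ x := by linarith
  have hDr : (1 : ℝ) ≤ D := by exact_mod_cast hD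
  set T : ℝ := 20 * (√D * L ^ 2 * (U : ℝ) ^ 2) with hT
  have hT0 : 0 ≤ T := by positivity
  -- pointwise bound
  have key : ∀ q ∈ Ioc D (2 * D), ∑ χ ∈ prim q, ((q : ℝ) / q.totient) * ‖rieszChi χ u‖
      ≤ 2 * D * T + ∑ χ ∈ prim q, ((q : ℝ) / q.totient) * ‖sumII χ U U u‖ := by
    intro q hq
    obtain ⟨hq1, hq2⟩ := Finset.mem_Ioc.mp hq
    have hq0 : q ≠ 0 := by omega
    have hqr : (q : ℝ) ≤ 2 * D := by exact_mod_cast hq2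
    have htot : (0 : ℝ) < q.totient := by
      exact_mod_cast Nat.totient_pos.mpr (by omega)
    have h1 : ∀ χ ∈ prim q, ((q : ℝ) / q.totient) * ‖rieszChi χ u‖ ≤
        ((q : ℝ) / q.totient) * T + ((q : ℝ) / q.totient) * ‖sumII χ U U u‖ := by
      intro χ hχ
      have hprim := (mem_prim hq0 χ).mp hχ
      have hb := typeI_bound (by omega : 1 < q) χ hprim U U p1 le_rfl x u hx1 hu hux
      have hn := typeI_num x hx D q U hD hDx p1 p4 hq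
      have : ‖rieszChi χ u‖ ≤ T + ‖sumII χ U U u‖ := by
        refine hb.trans ?_
        linarith
      calc ((q : ℝ) / q.totient) * ‖rieszChi χ u‖
          ≤ ((q : ℝ) / q.totient) * (T + ‖sumII χ U U u‖) := by gcongr
        _ = _ := by ring
    refine (Finset.sum_le_sum h1).trans ?_
    rw [Finset.sum_add_distrib, Finset.sum_const, nsmul_eq_mul]
    have hcard : ((prim q).card : ℝ) ≤ q.totient := by exact_mod_cast card_prim_le hq0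
    have : ((prim q).card : ℝ) * ((q : ℝ) / q.totient * T) ≤ 2 * D * T := by
      calc ((prim q).card : ℝ) * ((q : ℝ) / q.totient * T)
          ≤ (q.totient : ℝ) * ((q : ℝ) / q.totient * T) := by gcongr
        _ = q * T := by field_simp
        _ ≤ 2 * D * T := by gcongr
    linarith
  have step1 := Finset.sum_le_sum key
  rw [Finset.sum_add_distrib, Finset.sum_const, nsmul_eq_mul, Nat.card_Ioc] at step1
  have hcardD : ((2 * D - D : ℕ) : ℝ) = D := by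
    have : 2 * D - D = D := by omega
    rw [this]
  rw [hcardD] at step1
  have step2 : ∑ q ∈ Ioc D (2 * D), ∑ χ ∈ prim q, ((q : ℝ) / q.totient) * ‖sumII χ U U u‖
      ≤ ∑ q ∈ Icc 1 (2 * D), ∑ χ ∈ prim q, ((q : ℝ) / q.totient) * ‖sumII χ U U u‖ := by
    refine Finset.sum_le_sum_of_subset_of_nonneg ?_ ?_
    · intro q hq
      rw [Finset.mem_Ioc] at hq
      rw [Finset.mem_Icc]
      omega
    · intro q _ _
      exact Finset.sum_nonneg (fun χ _ => by positivity)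
  have step3 := typeII_bound (2 * D) U U p1 p1 x u hx1 hu hux
  have hX19 : 0 ≤ x ^ (19 / 20 : ℝ) := by positivity
  have c1 : D * (2 * D * T) ≤ 40 * L ^ 2 * (D * x ^ (19 / 20 : ℝ)) := by
    calc D * (2 * D * T) = 40 * L ^ 2 * ((D : ℝ) ^ 2 * √D * (U : ℝ) ^ 2) := by rw [hT]; ring
      _ ≤ _ := by gcongr
  have hL0 : 0 ≤ L := by linarith
  have c2 : L ^ 2 ≤ L ^ 6 := pow_le_pow_right₀ hL1 (by norm_num)
  have c3 : (1 + L) ^ 5 ≤ 32 * L ^ 6 := by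
    calc (1 + L) ^ 5 ≤ (2 * L) ^ 5 := by gcongr; linarith
      _ = 32 * L ^ 5 := by ring
      _ ≤ 32 * L ^ 6 := by
        have : L ^ 5 ≤ L ^ 6 := pow_le_pow_right₀ hL1 (by norm_num)
        linarith
  have c4 : x + ((2 * D : ℕ) : ℝ) * (x / √(U : ℝ)) + ((2 * D : ℕ) : ℝ) * (x / √(U : ℝ)) +
      (((2 * D : ℕ) : ℝ)) ^ 2 * √x ≤ 8 * (x + D * x ^ (19 / 20 : ℝ) + (D : ℝ) ^ 2 * √x) := by
    push_cast
    have d1 : 2 * (D : ℝ) * (x / √(U : ℝ)) ≤ 2 * (D : ℝ) * (2 * x ^ (19 / 20 : ℝ)) := by gcongr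
    have d2 : 0 ≤ (D : ℝ) ^ 2 * √x := by positivity
    nlinarith
  have hX0 : 0 ≤ x + D * x ^ (19 / 20 : ℝ) + (D : ℝ) ^ 2 * √x := by positivity
  have c5 : 200 * (1 + L) ^ 5 * (x + ((2 * D : ℕ) : ℝ) * (x / √(U : ℝ)) +
      ((2 * D : ℕ) : ℝ) * (x / √(U : ℝ)) + (((2 * D : ℕ) : ℝ)) ^ 2 * √x) ≤
      200 * (32 * L ^ 6) * (8 * (x + D * x ^ (19 / 20 : ℝ) + (D : ℝ) ^ 2 * √x)) := by
    have : 0 ≤ x + ((2 * D : ℕ) : ℝ) * (x / √(U : ℝ)) +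
      ((2 * D : ℕ) : ℝ) * (x / √(U : ℝ)) + (((2 * D : ℕ) : ℝ)) ^ 2 * √x := by positivity
    gcongr
  have c6 : 40 * L ^ 2 * (D * x ^ (19 / 20 : ℝ)) ≤
      40 * L ^ 6 * (x + D * x ^ (19 / 20 : ℝ) + (D : ℝ) ^ 2 * √x) := by
    have d2 : 0 ≤ (D : ℝ) ^ 2 * √x := by positivity
    gcongr
    linarith
  have c7 : 0 ≤ L ^ 6 * (x + D * x ^ (19 / 20 : ℝ) + (D : ℝ) ^ 2 * √x) := by positivity
  nlinarith

end BVM
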