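import Pool.Agent.helper66.VK.F2
import Pool.Agent.helper24.BV.Defs

/-!
# BVM A2: partial summation with an antitone weight and with the weight `log * antitone`

`Pool.Agent.helper66.VK.F2_abel'` is partial summation with the weight `log m`.
-/

open Finset

namespace BVM

/-- The induction behind `abel_anti`. -/
theorem Abel_step (G : ℕ → ℂ) (w : ℕ → ℝ) (hw : Antitone w) (a : ℕ) (C : ℝ) (b : ℕ) (hab : a ≤ b)
    (hC : ∀ c, a ≤ c → c ≤ b → ‖∑ m ∈ Ioc a c, G m‖ ≤ C) :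
    ‖∑ m ∈ Ioc a b, (w m : ℂ) * G m - (w b : ℂ) * ∑ m ∈ Ioc a b, G m‖ ≤ C * (w a - w b) := by
  induction b, hab using Nat.le_induction with
  | base => simp
  | succ b hab ih =>
    have ih' := ih fun c h1 h2 => hC c h1 (h2.trans (Nat.le_succ b))
    rw [Finset.sum_Ioc_succ_top (by omega), Finset.sum_Ioc_succ_top (by omega)]
    have hS := hC b hab (Nat.le_succ b)
    have hmono := hw (Nat.le_succ b)
    have heq : ∑ m ∈ Ioc a b, (w m : ℂ) * G m + (w (b + 1) : ℂ) * G (b + 1)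
        - (w (b + 1) : ℂ) * (∑ m ∈ Ioc a b, G m + G (b + 1))
        = (∑ m ∈ Ioc a b, (w m : ℂ) * G m - (w b : ℂ) * ∑ m ∈ Ioc a b, G m)
          + ((w b - w (b + 1) : ℝ) : ℂ) * ∑ m ∈ Ioc a b, G m := by
      push_cast
      ring
    rw [heq]
    refine (norm_add_le _ _).trans ?_
    rw [norm_mul, Complex.norm_real, Real.norm_eq_abs, abs_of_nonneg (sub_nonneg.2 hmono)]
    have h3 : (w b - w (b + 1)) * ‖∑ m ∈ Ioc a b, G m‖ ≤ (w b - w (b + 1)) * C :=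
      mul_le_mul_of_nonneg_left hS (sub_nonneg.2 hmono)
    calc _ ≤ C * (w a - w b) + (w b - w (b + 1)) * C := add_le_add ih' h3
      _ = C * (w a - w (b + 1)) := by ring

/-- **Abel summation with an antitone nonnegative weight.**
If all the sums `∑_{a < m ≤ c} G m`, `c ≤ b`, have norm `≤ C`, `w` is antitone, `0 ≤ w ≤ 1`, then
`‖∑_{a < m ≤ b} w(m) G(m)‖ ≤ C`.

Proof.  Show by induction on `b ≥ a + 1` (as in `F2_abel` in `Pool/Agent/helper66/VK/F2.lean`)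
`‖∑_{a<m≤b} w(m) G(m) - w(b) ∑_{a<m≤b} G(m)‖ ≤ C (w(a+1) - w(b))`:
with `S = ∑_{a<m≤b} G`, the quantity for `b+1` is the quantity for `b` plus `(w(b) - w(b+1)) S`.
Then add `‖w(b) ∑ G‖ ≤ w(b) C`: total `≤ C w(a+1) ≤ C`.  The case `b ≤ a` is an empty sum. -/
theorem abel_anti (G : ℕ → ℂ) (w : ℕ → ℝ) (hw : Antitone w) (h0 : ∀ m, 0 ≤ w m) (h1 : ∀ m, w m ≤ 1)
    (a b : ℕ) (C : ℝ) (hC0 : 0 ≤ C) (hC : ∀ c, c ≤ b → ‖∑ m ∈ Ioc a c, G m‖ ≤ C) :
    ‖∑ m ∈ Ioc a b, (w m : ℂ) * G m‖ ≤ C := by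
  rcases le_or_gt a b with hab | hab
  · have h2 := Abel_step G w hw a C b hab fun c _ h => hC c h
    have h3 := hC b le_rfl
    have h4 : ∑ m ∈ Ioc a b, (w m : ℂ) * G m
        = (∑ m ∈ Ioc a b, (w m : ℂ) * G m - (w b : ℂ) * ∑ m ∈ Ioc a b, G m)
          + (w b : ℂ) * ∑ m ∈ Ioc a b, G m := by ring
    rw [h4]
    refine (norm_add_le _ _).trans ?_
    rw [norm_mul, Complex.norm_real, Real.norm_eq_abs, abs_of_nonneg (h0 b)]
    have h5 : w b * ‖∑ m ∈ Ioc a b, G m‖ ≤ w b * C := mul_le_mul_of_nonneg_left h3 (h0 b)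
    have h6 : C * w a ≤ C := by
      calc C * w a ≤ C * 1 := mul_le_mul_of_nonneg_left (h1 a) hC0
        _ = C := mul_one C
    nlinarith
  · rw [Finset.Ioc_eq_empty (by omega)]
    simpa using hC0

/-- With both weights: `‖∑_{a<m≤b} log m w(m) G(m)‖ ≤ 2 log b C`.
Proof: apply `abel_anti` to `G'(m) = log m G(m)`, whose partial sums are bounded by `2 log c C ≤ 2 log b C` for
`c ≤ b` by `F2_abel'` (and `F2_log_mono`). -/
theorem abel_log_anti (G : ℕ → ℂ) (w : ℕ → ℝ) (hw : Antitone w) (h0 : ∀ m, 0 ≤ w m)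
    (h1 : ∀ m, w m ≤ 1) (a b : ℕ) (C : ℝ) (hC0 : 0 ≤ C)
    (hC : ∀ c, c ≤ b → ‖∑ m ∈ Ioc a c, G m‖ ≤ C) :
    ‖∑ m ∈ Ioc a b, (Real.log m : ℂ) * ((w m : ℂ) * G m)‖ ≤ 2 * Real.log b * C := by
  have h2 : ∑ m ∈ Ioc a b, (Real.log m : ℂ) * ((w m : ℂ) * G m) =
      ∑ m ∈ Ioc a b, (w m : ℂ) * ((Real.log m : ℂ) * G m) :=
    Finset.sum_congr rfl fun m _ => by ring
  rw [h2]
  have hb0 : 0 ≤ Real.log (b : ℝ) := Real.log_natCast_nonneg b
  apply abel_anti _ w hw h0 h1 a b _ (by positivity)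
  intro c hc
  have h3 := Pool.Agent.helper66.VK.F2_abel' G a c C hC0 fun d hd => hC d (hd.trans hc)
  refine h3.trans ?_
  have h4 := Pool.Agent.helper66.VK.F2_log_mono hc
  have h5 : 0 ≤ (Real.log b - Real.log c) * C := mul_nonneg (sub_nonneg.2 h4) hC0
  nlinarith

/-- The Riesz weights `m ↦ rz (k m / u)` are antitone with values in `[0,1]`. -/
theorem rz_antitone (k : ℕ) (u : ℝ) (hu : 0 < u) :
    Antitone (fun m : ℕ => rz (((k * m : ℕ) : ℝ) / u)) ∧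
      (∀ m : ℕ, 0 ≤ rz (((k * m : ℕ) : ℝ) / u)) ∧ ∀ m : ℕ, rz (((k * m : ℕ) : ℝ) / u) ≤ 1 := by
  refine ⟨?_, ?_, ?_⟩
  · intro m n hmn
    unfold rz
    apply max_le_max le_rfl
    have h1 : ((k * m : ℕ) : ℝ) ≤ ((k * n : ℕ) : ℝ) := by
      exact_mod_cast Nat.mul_le_mul_left k hmn
    have h2 := div_le_div_of_nonneg_right h1 hu.le
    linarith
  · intro m
    exact le_max_left _ _
  · intro m
    unfold rz
    apply max_le zero_le_one
    have h1 : 0 ≤ ((k * m : ℕ) : ℝ) / u := by positivity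
    linarith

end BVM
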