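import Pool.Agent.helper24.BV.RieszK

/-!
# BVM A2: separation of variables with the Riesz kernel
-/

open Finset MeasureTheory Complex

namespace BVM

/-- `∫ dξ / (1/4 + ξ^2) = 2 π`.  Proof: `integral_univ_inv_one_add_sq` and the substitution `ξ = t/2`
(`MeasureTheory.Measure.integral_comp_mul_left`); with integrability (`integrable_inv_one_add_sq`). -/
theorem integral_quarter :
    Integrable (fun ξ : ℝ => 1 / (1 / 4 + ξ ^ 2)) ∧ ∫ ξ : ℝ, 1 / (1 / 4 + ξ ^ 2) = 2 * Real.pi := by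
  have h0 : (0 : ℝ) < 1 / 2 := by norm_num
  have h1 := integrable_inv_sq_add_sq h0
  have h2 := integral_inv_sq_add_sq h0
  have h3 : ((1 : ℝ) / 2) ^ 2 = 1 / 4 := by norm_num
  rw [h3] at h1 h2
  refine ⟨h1, ?_⟩
  rw [h2]
  ring

theorem Sep_half : (((1 / 2 : ℝ) : ℝ) : ℂ) = (1 / 2 : ℂ) := by
  push_cast
  rfl

theorem Sep_rker (ξ : ℝ) : rker (1 / 2) ξ =
    1 / (((1 / 2 : ℂ) + ξ * I) * ((3 / 2 : ℂ) + ξ * I)) := by
  rw [rker, Sep_half]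
  congr 3
  norm_num

theorem Sep_cpow (m n : ℕ) (hm : 1 ≤ m) (hn : 1 ≤ n) (u : ℝ) (hu : 0 < u) (s : ℂ) :
    (((((m * n : ℕ) : ℝ) / u : ℝ)) : ℂ) ^ (-s) =
      (u : ℂ) ^ s * (m : ℂ) ^ (-s) * (n : ℂ) ^ (-s) := by
  have hm0 : (0 : ℝ) < m := by exact_mod_cast hm
  have hn0 : (0 : ℝ) < n := by exact_mod_cast hn
  have hy : (0 : ℝ) < ((m * n : ℕ) : ℝ) / u := by
    push_cast
    positivity
  have hm1 : (m : ℂ) ≠ 0 := by exact_mod_cast hm0.ne'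
  have hn1 : (n : ℂ) ≠ 0 := by exact_mod_cast hn0.ne'
  rw [Complex.cpow_def_of_ne_zero (Complex.ofReal_ne_zero.2 hy.ne'),
    Complex.cpow_def_of_ne_zero (Complex.ofReal_ne_zero.2 hu.ne'),
    Complex.cpow_def_of_ne_zero hm1, Complex.cpow_def_of_ne_zero hn1,
    ← Complex.exp_add, ← Complex.exp_add, ← Complex.ofReal_log hy.le, ← Complex.ofReal_log hu.le,
    ← Complex.natCast_log, ← Complex.natCast_log, Real.log_div (by push_cast; positivity) hu.ne']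
  push_cast
  rw [Real.log_mul hm0.ne' hn0.ne']
  push_cast
  congr 1
  ring

/-- The kernel formula for a product: for positive integers `m, n` and `u > 0`
`rz (mn/u) = (1/2π) ∫ u^(1/2+iξ) m^(-(1/2+iξ)) n^(-(1/2+iξ)) / ((1/2+iξ)(3/2+iξ)) dξ`, integrand integrable.
Proof: `riesz_formula` and `integrable_riesz` at `σ = 1/2`, `y = mn/u`; for positive reals
`(m n/u)^(-s) = u^s m^(-s) n^(-s)` (`Complex.mul_cpow_ofReal_nonneg`, `Complex.ofReal_cpow`... or all through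
`Complex.cpow_def_of_ne_zero`, `Complex.ofReal_log`, `Real.log_mul`). -/
theorem rz_mul (m n : ℕ) (hm : 1 ≤ m) (hn : 1 ≤ n) (u : ℝ) (hu : 0 < u) :
    Integrable (fun ξ : ℝ => (u : ℂ) ^ ((1 / 2 : ℂ) + ξ * I) * (m : ℂ) ^ (-((1 / 2 : ℂ) + ξ * I)) *
        (n : ℂ) ^ (-((1 / 2 : ℂ) + ξ * I)) / (((1 / 2 : ℂ) + ξ * I) * ((3 / 2 : ℂ) + ξ * I))) ∧
    2 * (Real.pi : ℂ) * ((rz (((m * n : ℕ) : ℝ) / u) : ℝ) : ℂ) =
      ∫ ξ : ℝ, (u : ℂ) ^ ((1 / 2 : ℂ) + ξ * I) * (m : ℂ) ^ (-((1 / 2 : ℂ) + ξ * I)) *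
        (n : ℂ) ^ (-((1 / 2 : ℂ) + ξ * I)) / (((1 / 2 : ℂ) + ξ * I) * ((3 / 2 : ℂ) + ξ * I)) := by
  have hm0 : (0 : ℝ) < m := by exact_mod_cast hm
  have hn0 : (0 : ℝ) < n := by exact_mod_cast hn
  have hy : (0 : ℝ) < ((m * n : ℕ) : ℝ) / u := by
    push_cast
    positivity
  have h0 : (0 : ℝ) < 1 / 2 := by norm_num
  have h1 := integrable_riesz h0 hy
  have h2 := riesz_formula h0 hy
  have h3 : (fun ξ : ℝ => (((((m * n : ℕ) : ℝ) / u : ℝ)) : ℂ) ^ (-((((1 / 2 : ℝ) : ℝ) : ℂ) + ξ * I)) /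
      (((((1 / 2 : ℝ) : ℝ) : ℂ) + ξ * I) * ((((1 / 2 : ℝ) : ℝ) : ℂ) + 1 + ξ * I))) =
      fun ξ : ℝ => (u : ℂ) ^ ((1 / 2 : ℂ) + ξ * I) * (m : ℂ) ^ (-((1 / 2 : ℂ) + ξ * I)) *
        (n : ℂ) ^ (-((1 / 2 : ℂ) + ξ * I)) / (((1 / 2 : ℂ) + ξ * I) * ((3 / 2 : ℂ) + ξ * I)) := by
    funext ξ
    rw [Sep_cpow m n hm hn u hu, Sep_half]
    congr 2
    norm_num
  rw [h3] at h1
  refine ⟨h1, ?_⟩
  rw [← h2]
  exact congrArg (fun g => ∫ ξ : ℝ, g ξ) h3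

/-- **Separation of variables.**  `X` a finite index set, `f i` completely multiplicative, weights `c i ≥ 0`.

Proof.  Fix `i`, `A(ξ) = ∑_{m ∈ S} a_m f_i(m) m^(-(1/2+iξ))`, `B(ξ) = ∑_{n ∈ T} b_n f_i(n) n^(-(1/2+iξ))`.  By `rz_mul`
(multiply by `a_m b_n f_i(m n) = a_m b_n f_i(m) f_i(n)`, sum over `m, n`, interchange the finite sums with the integral:
`integral_finset_sum`, `integral_const_mul`)
`2π ∑_m ∑_n a_m b_n f_i(mn) rz(mn/u) = ∫ u^(1/2+iξ) A(ξ) B(ξ) / ((1/2+iξ)(3/2+iξ)) dξ`;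
the norm of the integrand is `≤ √u ‖A(ξ)‖ ‖B(ξ)‖ / (1/4 + ξ^2)` (`norm_kernel_le` at `σ = 1/2`;
`|u^(1/2+iξ)| = u^(1/2)`: `Complex.norm_cpow_eq_rpow_re_of_pos`).  This bound is integrable (`A`, `B` are bounded and
continuous in `ξ`).  Multiply by `c_i`, sum over `i`, exchange the finite sum and the integral, use `hK` for every `ξ`:
`2π ∑_i c_i |...| ≤ √u K ∫ dξ/(1/4+ξ^2) = 2π √u K` (`integral_quarter`, `integral_mono`); finally `√u K ≤ 2 √u K` as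
`K ≥ 0`. -/
theorem separation {ι : Type*} (X : Finset ι) (f : ι → ℕ → ℂ)
    (hf : ∀ i m n, f i (m * n) = f i m * f i n) (c : ι → ℝ) (hc : ∀ i ∈ X, 0 ≤ c i)
    (S T : Finset ℕ) (hS : ∀ m ∈ S, 1 ≤ m) (hT : ∀ n ∈ T, 1 ≤ n) (a b : ℕ → ℂ) (u : ℝ) (hu : 0 < u)
    (K : ℝ)
    (hK : ∀ ξ : ℝ, ∑ i ∈ X, c i *
      (‖∑ m ∈ S, a m * f i m * (m : ℂ) ^ (-((1 / 2 : ℂ) + ξ * I))‖ *
        ‖∑ n ∈ T, b n * f i n * (n : ℂ) ^ (-((1 / 2 : ℂ) + ξ * I))‖) ≤ K) :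
    ∑ i ∈ X, c i * ‖∑ m ∈ S, ∑ n ∈ T, a m * b n * f i (m * n) *
      ((rz (((m * n : ℕ) : ℝ) / u) : ℝ) : ℂ)‖ ≤ 2 * √u * K := by
  set A : ι → ℝ → ℂ := fun i ξ => ∑ m ∈ S, a m * f i m * (m : ℂ) ^ (-((1 / 2 : ℂ) + ξ * I)) with hA
  set B : ι → ℝ → ℂ := fun i ξ => ∑ n ∈ T, b n * f i n * (n : ℂ) ^ (-((1 / 2 : ℂ) + ξ * I)) with hB
  have hint : ∀ i : ι, Integrable (fun ξ : ℝ => (u : ℂ) ^ ((1 / 2 : ℂ) + ξ * I) * A i ξ * B i ξ /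
      (((1 / 2 : ℂ) + ξ * I) * ((3 / 2 : ℂ) + ξ * I))) ∧
      2 * (Real.pi : ℂ) * (∑ m ∈ S, ∑ n ∈ T, a m * b n * f i (m * n) *
        ((rz (((m * n : ℕ) : ℝ) / u) : ℝ) : ℂ)) =
      ∫ ξ : ℝ, (u : ℂ) ^ ((1 / 2 : ℂ) + ξ * I) * A i ξ * B i ξ /
      (((1 / 2 : ℂ) + ξ * I) * ((3 / 2 : ℂ) + ξ * I)) := by
    intro i
    have he : (fun ξ : ℝ => (u : ℂ) ^ ((1 / 2 : ℂ) + ξ * I) * A i ξ * B i ξ /
      (((1 / 2 : ℂ) + ξ * I) * ((3 / 2 : ℂ) + ξ * I))) =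
      fun ξ : ℝ => ∑ m ∈ S, ∑ n ∈ T, (a m * b n * f i (m * n)) *
        ((u : ℂ) ^ ((1 / 2 : ℂ) + ξ * I) * (m : ℂ) ^ (-((1 / 2 : ℂ) + ξ * I)) *
        (n : ℂ) ^ (-((1 / 2 : ℂ) + ξ * I)) / (((1 / 2 : ℂ) + ξ * I) * ((3 / 2 : ℂ) + ξ * I))) := by
      funext ξ
      simp only [hA, hB]
      rw [mul_assoc, Finset.sum_mul_sum, mul_div_assoc, Finset.sum_div, Finset.mul_sum]
      refine Finset.sum_congr rfl fun m _ => ?_
      rw [Finset.sum_div, Finset.mul_sum]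
      refine Finset.sum_congr rfl fun n _ => ?_
      rw [hf]
      ring
    have hterm : ∀ m ∈ S, ∀ n ∈ T, Integrable (fun ξ : ℝ => (a m * b n * f i (m * n)) *
        ((u : ℂ) ^ ((1 / 2 : ℂ) + ξ * I) * (m : ℂ) ^ (-((1 / 2 : ℂ) + ξ * I)) *
        (n : ℂ) ^ (-((1 / 2 : ℂ) + ξ * I)) / (((1 / 2 : ℂ) + ξ * I) * ((3 / 2 : ℂ) + ξ * I)))) :=
      fun m hm n hn => (rz_mul m n (hS m hm) (hT n hn) u hu).1.const_mul _
    rw [he]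
    refine ⟨integrable_finsetSum _ fun m hm => integrable_finsetSum _ fun n hn => hterm m hm n hn, ?_⟩
    rw [integral_finsetSum _ fun m hm => integrable_finsetSum _ fun n hn => hterm m hm n hn,
      Finset.mul_sum]
    refine Finset.sum_congr rfl fun m hm => ?_
    rw [integral_finsetSum _ fun n hn => hterm m hm n hn, Finset.mul_sum]
    refine Finset.sum_congr rfl fun n hn => ?_
    rw [integral_const_mul, ← (rz_mul m n (hS m hm) (hT n hn) u hu).2]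
    ring
  have hnorm : ∀ i : ι, ∀ ξ : ℝ, ‖(u : ℂ) ^ ((1 / 2 : ℂ) + ξ * I) * A i ξ * B i ξ /
      (((1 / 2 : ℂ) + ξ * I) * ((3 / 2 : ℂ) + ξ * I))‖ ≤
      √u * (‖A i ξ‖ * ‖B i ξ‖) * (1 / (1 / 4 + ξ ^ 2)) := by
    intro i ξ
    have h1 : ‖(u : ℂ) ^ ((1 / 2 : ℂ) + ξ * I)‖ = √u := by
      rw [Complex.norm_cpow_eq_rpow_re_of_pos hu, Real.sqrt_eq_rpow]
      congr 1
      simp
    have h2 := norm_rker_le (s := 1 / 2) (by norm_num) ξ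
    have h3 : ((1 : ℝ) / 2) ^ 2 = 1 / 4 := by norm_num
    rw [Sep_rker, h3] at h2
    rw [div_eq_mul_one_div, norm_mul, norm_mul, norm_mul, h1, ← mul_assoc]
    exact mul_le_mul_of_nonneg_left h2 (by positivity)
  have hpi : (0 : ℝ) < 2 * Real.pi := by positivity
  have hK0 : 0 ≤ K := by
    refine le_trans ?_ (hK 0)
    exact Finset.sum_nonneg fun i hi => mul_nonneg (hc i hi) (by positivity)
  have hone : ∀ i : ι, 2 * Real.pi * ‖∑ m ∈ S, ∑ n ∈ T, a m * b n * f i (m * n) *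
        ((rz (((m * n : ℕ) : ℝ) / u) : ℝ) : ℂ)‖ ≤
      ∫ ξ : ℝ, ‖(u : ℂ) ^ ((1 / 2 : ℂ) + ξ * I) * A i ξ * B i ξ /
      (((1 / 2 : ℂ) + ξ * I) * ((3 / 2 : ℂ) + ξ * I))‖ := by
    intro i
    have h1 : 2 * Real.pi * ‖∑ m ∈ S, ∑ n ∈ T, a m * b n * f i (m * n) *
        ((rz (((m * n : ℕ) : ℝ) / u) : ℝ) : ℂ)‖ = ‖2 * (Real.pi : ℂ) * (∑ m ∈ S, ∑ n ∈ T,
        a m * b n * f i (m * n) * ((rz (((m * n : ℕ) : ℝ) / u) : ℝ) : ℂ))‖ := by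
      rw [norm_mul, norm_mul, Complex.norm_real, Real.norm_of_nonneg Real.pi_pos.le]
      norm_num
    rw [h1, (hint i).2]
    exact norm_integral_le_integral_norm _
  have hmain : 2 * Real.pi * ∑ i ∈ X, c i * ‖∑ m ∈ S, ∑ n ∈ T, a m * b n * f i (m * n) *
      ((rz (((m * n : ℕ) : ℝ) / u) : ℝ) : ℂ)‖ ≤ √u * K * (2 * Real.pi) := by
    calc 2 * Real.pi * ∑ i ∈ X, c i * ‖∑ m ∈ S, ∑ n ∈ T, a m * b n * f i (m * n) *
      ((rz (((m * n : ℕ) : ℝ) / u) : ℝ) : ℂ)‖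
        = ∑ i ∈ X, c i * (2 * Real.pi * ‖∑ m ∈ S, ∑ n ∈ T, a m * b n * f i (m * n) *
      ((rz (((m * n : ℕ) : ℝ) / u) : ℝ) : ℂ)‖) := by
          rw [Finset.mul_sum]
          refine Finset.sum_congr rfl fun i _ => ?_
          ring
      _ ≤ ∑ i ∈ X, c i * ∫ ξ : ℝ, ‖(u : ℂ) ^ ((1 / 2 : ℂ) + ξ * I) * A i ξ * B i ξ /
      (((1 / 2 : ℂ) + ξ * I) * ((3 / 2 : ℂ) + ξ * I))‖ :=
          Finset.sum_le_sum fun i hi => mul_le_mul_of_nonneg_left (hone i) (hc i hi)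
      _ = ∫ ξ : ℝ, ∑ i ∈ X, c i * ‖(u : ℂ) ^ ((1 / 2 : ℂ) + ξ * I) * A i ξ * B i ξ /
      (((1 / 2 : ℂ) + ξ * I) * ((3 / 2 : ℂ) + ξ * I))‖ := by
          rw [integral_finsetSum _ fun i _ => (hint i).1.norm.const_mul _]
          refine Finset.sum_congr rfl fun i _ => ?_
          rw [integral_const_mul]
      _ ≤ ∫ ξ : ℝ, √u * K * (1 / (1 / 4 + ξ ^ 2)) := by
          refine integral_mono (integrable_finsetSum _ fun i _ => (hint i).1.norm.const_mul _)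
            (integral_quarter.1.const_mul _) fun ξ => ?_
          simp only
          have hq : 0 ≤ 1 / (1 / 4 + ξ ^ 2) := by positivity
          calc ∑ i ∈ X, c i * ‖(u : ℂ) ^ ((1 / 2 : ℂ) + ξ * I) * A i ξ * B i ξ /
      (((1 / 2 : ℂ) + ξ * I) * ((3 / 2 : ℂ) + ξ * I))‖
              ≤ ∑ i ∈ X, c i * (√u * (‖A i ξ‖ * ‖B i ξ‖) * (1 / (1 / 4 + ξ ^ 2))) :=
                Finset.sum_le_sum fun i hi => mul_le_mul_of_nonneg_left (hnorm i ξ) (hc i hi)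
            _ = √u * (∑ i ∈ X, c i * (‖A i ξ‖ * ‖B i ξ‖)) * (1 / (1 / 4 + ξ ^ 2)) := by
                rw [Finset.mul_sum, Finset.sum_mul]
                refine Finset.sum_congr rfl fun i _ => ?_
                ring
            _ ≤ √u * K * (1 / (1 / 4 + ξ ^ 2)) :=
                mul_le_mul_of_nonneg_right
                  (mul_le_mul_of_nonneg_left (hK ξ) (Real.sqrt_nonneg u)) hq
      _ = √u * K * (2 * Real.pi) := by rw [integral_const_mul, integral_quarter.2]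
  have hfin : ∑ i ∈ X, c i * ‖∑ m ∈ S, ∑ n ∈ T, a m * b n * f i (m * n) *
      ((rz (((m * n : ℕ) : ℝ) / u) : ℝ) : ℂ)‖ ≤ √u * K := by
    rw [mul_comm] at hmain
    exact le_of_mul_le_mul_right hmain hpi
  have : 0 ≤ √u * K := mul_nonneg (Real.sqrt_nonneg u) hK0
  linarith

end BVM
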