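import Pool.Agent.helper73.BV.LargeSieve
import Pool.Agent.helper73.BV.Sep

/-!
# BVM A2: one bilinear block
-/

open Finset Complex

namespace BVM

/-- The large sieve for the twisted coefficients `a_m m^(-(1/2+iξ))` on `Ioc M (M+N)`.
Proof: `largeSieve` with the coefficients `a m * m^(-(1/2+iξ))`; `‖m^(-(1/2+iξ))‖ = m^(-1/2)`
(`Complex.norm_natCast_cpow_of_pos`), so `‖a_m m^(-(1/2+iξ))‖^2 = ‖a_m‖^2/m` for `m ≥ 1`. -/
theorem ls_twist (R M N : ℕ) (hN : 1 ≤ N) (a : ℕ → ℂ) (ξ : ℝ) :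
    ∑ q ∈ Icc 1 R, ∑ χ ∈ prim q, ((q : ℝ) / q.totient) *
        ‖∑ m ∈ Ioc M (M + N), a m * χ (m : ZMod q) * (m : ℂ) ^ (-((1 / 2 : ℂ) + ξ * I))‖ ^ 2
      ≤ 10 * (N + (R : ℝ) ^ 2) * ∑ m ∈ Ioc M (M + N), ‖a m‖ ^ 2 / m := by
  have h := largeSieve R M N hN (fun m => a m * (m : ℂ) ^ (-((1 / 2 : ℂ) + ξ * I)))
  have h1 : ∀ m ∈ Ioc M (M + N), ‖a m * (m : ℂ) ^ (-((1 / 2 : ℂ) + ξ * I))‖ ^ 2 =
      ‖a m‖ ^ 2 / m := by
    intro m hm
    have hm0 : 0 < m := lt_of_le_of_lt (Nat.zero_le M) (mem_Ioc.mp hm).1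
    have hm1 : (0 : ℝ) < m := by exact_mod_cast hm0
    have h2 : (-((1 / 2 : ℂ) + ξ * I)).re = -(1 / 2) := by simp
    have h3 : (-(1 / 2 : ℝ)) * ((2 : ℕ) : ℝ) = -1 := by norm_num
    have h4 : ((m : ℝ) ^ (-(1 / 2) : ℝ)) ^ 2 = (m : ℝ)⁻¹ := by
      rw [← Real.rpow_natCast, ← Real.rpow_mul hm1.le, h3, Real.rpow_neg_one]
    rw [norm_mul, Complex.norm_natCast_cpow_of_pos hm0, mul_pow, h2, h4, div_eq_mul_inv]
  rw [Finset.sum_congr rfl h1] at h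
  refine le_trans (le_of_eq ?_) h
  refine Finset.sum_congr rfl fun q _ => Finset.sum_congr rfl fun χ _ => ?_
  congr 3
  refine Finset.sum_congr rfl fun m _ => ?_
  ring

/-- **Bilinear block.**
Proof.  `separation` with the index set of all pairs `(q, χ)`, `q ∈ Icc 1 R`, `χ ∈ prim q` (a `Finset.sigma`;
`Finset.sum_sigma`), `f (q,χ) n = χ n`, `c = q/φ(q)`, `S = Ioc M (2M) = Ioc M (M+M)`, `T = Ioc 0 K = Ioc 0 (0+K)`.
For every `ξ`, Cauchy-Schwarz (`Finset.sum_mul_le_sqrt_mul_sqrt` or `Finset.inner_mul_le_norm_mul_norm`, for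
`√c ‖A‖` and `√c ‖B‖`) and `ls_twist` twice:
`∑ c ‖A‖ ‖B‖ ≤ √(10 (M+R^2) ∑ ‖a‖^2/m) √(10 (K+R^2) ∑ ‖b‖^2/n)`, and `2 √u * 10 = 20 √u`. -/
theorem bilinear (R M K : ℕ) (hM : 1 ≤ M) (hK : 1 ≤ K) (u : ℝ) (hu : 0 < u) (a b : ℕ → ℂ) :
    ∑ q ∈ Icc 1 R, ∑ χ ∈ prim q, ((q : ℝ) / q.totient) *
        ‖∑ m ∈ Ioc M (2 * M), ∑ n ∈ Ioc 0 K, a m * b n * χ ((m * n : ℕ) : ZMod q) *
          ((rz (((m * n : ℕ) : ℝ) / u) : ℝ) : ℂ)‖
      ≤ 20 * √u * (√(M + (R : ℝ) ^ 2) * √(K + (R : ℝ) ^ 2)) *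
        (√(∑ m ∈ Ioc M (2 * M), ‖a m‖ ^ 2 / m) * √(∑ n ∈ Ioc 0 K, ‖b n‖ ^ 2 / n)) := by
  have h2M : 2 * M = M + M := by ring
  have h0K : K = 0 + K := (zero_add K).symm
  set SA : ℝ := ∑ m ∈ Ioc M (2 * M), ‖a m‖ ^ 2 / m with hSA
  set SB : ℝ := ∑ n ∈ Ioc 0 K, ‖b n‖ ^ 2 / n with hSB
  have hSA0 : 0 ≤ SA := Finset.sum_nonneg fun m _ => by positivity
  have hSB0 : 0 ≤ SB := Finset.sum_nonneg fun m _ => by positivity
  set P : ℝ := 10 * ((M : ℝ) + (R : ℝ) ^ 2) * SA with hP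
  set Q : ℝ := 10 * ((K : ℝ) + (R : ℝ) ^ 2) * SB with hQ
  have hP0 : 0 ≤ P := by positivity
  have hQ0 : 0 ≤ Q := by positivity
  have hb := separation (ι := (q : ℕ) × DirichletCharacter ℂ q)
    ((Icc 1 R).sigma fun q => prim q) (fun i n => i.2 (n : ZMod i.1))
    (fun i m n => by push_cast; rw [map_mul]) (fun i => (i.1 : ℝ) / i.1.totient)
    (fun i _ => by positivity) (Ioc M (2 * M)) (Ioc 0 K)
    (fun m hm => lt_of_le_of_lt (Nat.zero_le M) (mem_Ioc.mp hm).1)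
    (fun n hn => (mem_Ioc.mp hn).1) a b u hu (√P * √Q) ?_
  · rw [Finset.sum_sigma] at hb
    refine hb.trans (le_of_eq ?_)
    have h10 : √(10 : ℝ) * √10 = 10 := Real.mul_self_sqrt (by norm_num)
    rw [hP, hQ, Real.sqrt_mul (by positivity), Real.sqrt_mul (by norm_num),
      Real.sqrt_mul (by positivity), Real.sqrt_mul (by norm_num)]
    calc 2 * √u * (√10 * √((M : ℝ) + (R : ℝ) ^ 2) * √SA * (√10 * √((K : ℝ) + (R : ℝ) ^ 2) * √SB))
        = 2 * (√10 * √10) * √u * (√((M : ℝ) + (R : ℝ) ^ 2) * √((K : ℝ) + (R : ℝ) ^ 2)) *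
          (√SA * √SB) := by ring
      _ = _ := by rw [h10]; ring
  · intro ξ
    have hA := ls_twist R M M hM a ξ
    have hB := ls_twist R 0 K hK b ξ
    rw [← h2M] at hA
    rw [← h0K] at hB
    set U : ((q : ℕ) × DirichletCharacter ℂ q) → ℝ := fun i =>
      ‖∑ m ∈ Ioc M (2 * M), a m * i.2 (m : ZMod i.1) * (m : ℂ) ^ (-((1 / 2 : ℂ) + ξ * I))‖ with hU
    set V : ((q : ℕ) × DirichletCharacter ℂ q) → ℝ := fun i =>
      ‖∑ n ∈ Ioc 0 K, b n * i.2 (n : ZMod i.1) * (n : ℂ) ^ (-((1 / 2 : ℂ) + ξ * I))‖ with hV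
    have hA' : ∑ i ∈ (Icc 1 R).sigma fun q => prim q,
        (√((i.1 : ℝ) / i.1.totient) * U i) ^ 2 ≤ P := by
      rw [Finset.sum_sigma]
      refine le_trans (le_of_eq ?_) hA
      refine Finset.sum_congr rfl fun q _ => Finset.sum_congr rfl fun χ _ => ?_
      rw [mul_pow, Real.sq_sqrt (by positivity)]
    have hB' : ∑ i ∈ (Icc 1 R).sigma fun q => prim q,
        (√((i.1 : ℝ) / i.1.totient) * V i) ^ 2 ≤ Q := by
      rw [Finset.sum_sigma]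
      refine le_trans (le_of_eq ?_) hB
      refine Finset.sum_congr rfl fun q _ => Finset.sum_congr rfl fun χ _ => ?_
      rw [mul_pow, Real.sq_sqrt (by positivity)]
    have hcs := Real.sum_mul_le_sqrt_mul_sqrt ((Icc 1 R).sigma fun q => prim q)
      (fun i => √((i.1 : ℝ) / i.1.totient) * U i) (fun i => √((i.1 : ℝ) / i.1.totient) * V i)
    calc ∑ i ∈ (Icc 1 R).sigma fun q => prim q, ((i.1 : ℝ) / i.1.totient) * (U i * V i)
        = ∑ i ∈ (Icc 1 R).sigma fun q => prim q, (√((i.1 : ℝ) / i.1.totient) * U i) *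
          (√((i.1 : ℝ) / i.1.totient) * V i) := by
          refine Finset.sum_congr rfl fun i _ => ?_
          have hs : √((i.1 : ℝ) / i.1.totient) * √((i.1 : ℝ) / i.1.totient) =
            (i.1 : ℝ) / i.1.totient := Real.mul_self_sqrt (by positivity)
          calc ((i.1 : ℝ) / i.1.totient) * (U i * V i)
              = (√((i.1 : ℝ) / i.1.totient) * √((i.1 : ℝ) / i.1.totient)) * (U i * V i) := by
                rw [hs]
            _ = _ := by ring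
      _ ≤ _ := hcs
      _ ≤ √P * √Q := mul_le_mul (Real.sqrt_le_sqrt hA') (Real.sqrt_le_sqrt hB')
          (Real.sqrt_nonneg _) (Real.sqrt_nonneg _)

end BVM
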