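import Pool.Agent.helper73.BV.TypeI
import Pool.Agent.helper66.VK.F3b

/-!
# BVM A2: dyadic blocks of the type II sum
-/

open Finset ArithmeticFunction
open Pool.Agent.helper66.VK (aV bV)

namespace BVM

/-- The block `M < m ≤ 2M` of the type II sum. -/
noncomputable def blockII {q : ℕ} (χ : DirichletCharacter ℂ q) (U V : ℕ) (u : ℝ) (M : ℕ) : ℂ :=
  ∑ m ∈ Ioc M (2 * M), ∑ n ∈ Ioc 0 (⌊u⌋₊ / M), ((bV U m : ℝ) : ℂ) *
    ((if V < n then vonMangoldt n else 0 : ℝ) : ℂ) * χ ((m * n : ℕ) : ZMod q) *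
      ((rz (((m * n : ℕ) : ℝ) / u) : ℝ) : ℂ)

/-- `rz (k/u) = 0` for `k > ⌊u⌋₊` (then `k > u`: `Nat.lt_of_floor_lt`). -/
theorem rz_eq_zero (k : ℕ) (u : ℝ) (hu : 0 < u) (hk : ⌊u⌋₊ < k) : rz ((k : ℝ) / u) = 0 := by
  have h1 : u < k := Nat.lt_of_floor_lt hk
  have h2 : 1 ≤ (k : ℝ) / u := by rw [le_div_iff₀ hu]; linarith
  unfold rz
  exact max_eq_left (by linarith)

/-- the term of the type II sum at `m`, as a sum over `n ≤ K` for any `K ≥ N/m` -/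
theorem Blocks_inner {q : ℕ} (χ : DirichletCharacter ℂ q) (V m K : ℕ) (hm : 1 ≤ m)
    (u : ℝ) (hu : 0 < u) (hK : ⌊u⌋₊ / m ≤ K) :
    ∑ c ∈ Ioc V (⌊u⌋₊ / m), ((vonMangoldt c : ℝ) : ℂ) *
      (χ ((c * m : ℕ) : ZMod q) * ((rz (((c * m : ℕ) : ℝ) / u) : ℝ) : ℂ)) =
    ∑ n ∈ Ioc 0 K, ((if V < n then vonMangoldt n else 0 : ℝ) : ℂ) *
      (χ ((m * n : ℕ) : ZMod q) * ((rz (((m * n : ℕ) : ℝ) / u) : ℝ) : ℂ)) := by
  have hsub : Ioc V (⌊u⌋₊ / m) ⊆ Ioc 0 K := by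
    intro c hc
    rw [mem_Ioc] at hc ⊢
    omega
  rw [← sum_subset hsub]
  · refine sum_congr rfl fun c hc => ?_
    rw [if_pos (mem_Ioc.mp hc).1, mul_comm c m]
  · intro n _ hn2
    by_cases hV : V < n
    · have h3 : ⌊u⌋₊ / m < n := by
        by_contra h
        exact hn2 (mem_Ioc.mpr ⟨hV, not_lt.mp h⟩)
      have h4 : ⌊u⌋₊ < m * n := by
        rw [Nat.div_lt_iff_lt_mul hm] at h3
        rwa [mul_comm] at h3
      rw [rz_eq_zero _ u hu h4]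
      simp
    · rw [if_neg hV]
      simp

/-- **Dyadic decomposition of the type II sum.**
Proof.  Let `N = ⌊u⌋₊`, `I = Nat.log 2 N + 1`.  `N < 2^I` (`Nat.lt_pow_succ_log_self`), so all `m ∈ Ioc U (N/V)` satisfy
`m ≤ 2^I * U`, and `F3b_dyadic` (in `Pool/Agent/helper66/VK/F3b.lean`, with `g m` = the term of `sumII`) gives
`sumII = ∑_{i<I} ∑_{m ∈ (Ioc U (N/V)).filter (M_i < m ≤ 2 M_i)} g m`, `M_i = 2^i U`.
If `M_i > N/V` the inner sum is empty.  Let `M = M_i ≤ N/V`.  For `M < m ≤ 2M`: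
* if `m ≤ N/V`: `∑_{c ∈ Ioc V (N/m)} Λ(c) χ(cm) rz(cm/u)` equals `∑_{n ∈ Ioc 0 (N/M)} [V < n] Λ(n) χ(mn) rz(mn/u)`: `N/m ≤ N/M`,
  and the additional `n > N/m` have `m n > N` (`Nat.div_lt_iff_lt_mul`), so `rz_eq_zero`;
* if `m > N/V`: all terms with `n > V` have `m n > N` (`m ≥ N/V + 1`, `(N/V+1) V > N`), so they vanish by `rz_eq_zero`.
Also `m > M ≥ U`, so the conditions of the filter are the conditions of the block. -/
theorem sumII_eq {q : ℕ} (χ : DirichletCharacter ℂ q) (U V : ℕ) (hU : 1 ≤ U) (hV : 1 ≤ V)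
    (u : ℝ) (hu : 0 < u) :
    sumII χ U V u =
      ∑ i ∈ (range (Nat.log 2 ⌊u⌋₊ + 1)).filter (fun i => 2 ^ i * U ≤ ⌊u⌋₊ / V),
        blockII χ U V u (2 ^ i * U) := by
  set N := ⌊u⌋₊ with hN
  set g : ℕ → ℂ := fun m => (bV U m : ℂ) *
    ∑ c ∈ Ioc V (N / m), ((vonMangoldt c : ℝ) : ℂ) *
      (χ ((c * m : ℕ) : ZMod q) * ((rz (((c * m : ℕ) : ℝ) / u) : ℝ) : ℂ)) with hg
  have h1 : sumII χ U V u = ∑ m ∈ (Ioc U (N / V)).filter (fun m => m ≤ 2 ^ (Nat.log 2 N + 1) * U), g m := by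
    unfold sumII
    rw [← hN]
    apply sum_congr _ (fun _ _ => rfl)
    ext m
    rw [mem_filter, mem_Ioc]
    constructor
    · rintro ⟨h2, h3⟩
      refine ⟨⟨h2, h3⟩, ?_⟩
      have h4 : N < 2 ^ (Nat.log 2 N + 1) := Nat.lt_pow_succ_log_self (by norm_num) N
      calc m ≤ N / V := h3
        _ ≤ N := Nat.div_le_self _ _
        _ ≤ 2 ^ (Nat.log 2 N + 1) := h4.le
        _ ≤ 2 ^ (Nat.log 2 N + 1) * U := Nat.le_mul_of_pos_right _ hU
    · exact fun h => h.1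
  rw [h1, Pool.Agent.helper66.VK.F3b_dyadic, sum_filter]
  refine sum_congr rfl fun i _ => ?_
  set M := 2 ^ i * U with hM
  have hUM : U ≤ M := Nat.le_mul_of_pos_left U (by positivity)
  split_ifs with h5
  · -- the block
    unfold blockII
    rw [← hN]
    have hsub : (Ioc U (N / V)).filter (fun m => M < m ∧ m ≤ 2 * M) ⊆ Ioc M (2 * M) := by
      intro m hm
      rw [mem_filter] at hm
      rw [mem_Ioc]
      exact hm.2
    rw [sum_subset hsub]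
    · refine sum_congr rfl fun m hm => ?_
      rw [mem_Ioc] at hm
      have hm1 : 1 ≤ m := by omega
      simp only [hg]
      rw [hN, Blocks_inner χ V m (⌊u⌋₊ / M) hm1 u hu (Nat.div_le_div_left hm.1.le (by omega)), mul_sum]
      refine sum_congr rfl fun n _ => ?_
      ring
    · intro m hm hm2
      rw [mem_Ioc] at hm
      have hm1 : 1 ≤ m := by omega
      have h6 : N / V < m := by
        by_contra h
        exact hm2 (mem_filter.mpr ⟨mem_Ioc.mpr ⟨by omega, not_lt.mp h⟩, hm⟩)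
      simp only [hg]
      have h7 : N / m ≤ V := by
        have h8 : N < m * V := by
          rw [Nat.div_lt_iff_lt_mul hV] at h6
          exact h6
        have h9 : N / m < V := by
          rw [Nat.div_lt_iff_lt_mul hm1, mul_comm]
          exact h8
        exact h9.le
      rw [Ioc_eq_empty (by omega), sum_empty, mul_zero]
  · apply sum_eq_zero
    intro m hm
    rw [mem_filter, mem_Ioc] at hm
    omega

/-- The number of blocks: `log_2 N + 1 ≤ 2 (1 + log x)` for `N = ⌊u⌋₊`, `u ≤ x`, `1 ≤ x`.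
Proof: if `N = 0` it is `1`; else `2^(log_2 N) ≤ N ≤ x`, so `(log_2 N) log 2 ≤ log x`, `1/log 2 ≤ 2`. -/
theorem count_blocks (x u : ℝ) (hx : 1 ≤ x) (hux : u ≤ x) :
    ((Nat.log 2 ⌊u⌋₊ + 1 : ℕ) : ℝ) ≤ 2 * (1 + Real.log x) := by
  have hL : 0 ≤ Real.log x := Real.log_nonneg hx
  rcases Nat.eq_zero_or_pos ⌊u⌋₊ with h | h
  · rw [h]
    simp
    linarith
  · have hu : 0 ≤ u := by
      by_contra h0
      rw [Nat.floor_of_nonpos (by linarith)] at h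
      exact lt_irrefl _ h
    have h1 : 2 ^ Nat.log 2 ⌊u⌋₊ ≤ ⌊u⌋₊ := Nat.pow_log_le_self 2 (by omega)
    have h2 : (2 : ℝ) ^ (Nat.log 2 ⌊u⌋₊) ≤ x := by
      have h3 : (2 : ℝ) ^ (Nat.log 2 ⌊u⌋₊) ≤ (⌊u⌋₊ : ℝ) := by exact_mod_cast h1
      exact h3.trans ((Nat.floor_le hu).trans hux)
    have h4 := Real.log_le_log (by positivity) h2
    rw [Real.log_pow] at h4
    have h5 := Real.log_two_gt_d9
    push_cast
    have h6 : (0 : ℝ) ≤ (Nat.log 2 ⌊u⌋₊ : ℝ) := Nat.cast_nonneg _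
    nlinarith

end BVM
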