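import Pool.Agent.helper73.BV.LS4

/-!
# BVM A2, LS2: Farey points and the additive large sieve (author: helper59)
-/

open Finset
open Pool.Agent.helper66.VK (ee)

namespace BVM

/-- Distinct reduced fractions of denominators at most `Q` are `1/Q^2`-separated.
Proof: `|h/q - h'/q'| = |h q' - h' q|/(q q')`, the numerator is an integer, nonzero because the fractions
are distinct, and `q q' ≤ Q^2`. -/
theorem farey_sep (Q q q' h h' : ℕ) (hq : 1 ≤ q) (hq' : 1 ≤ q') (hqQ : q ≤ Q) (hqQ' : q' ≤ Q)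
    (hne : (h : ℝ) / q ≠ (h' : ℝ) / q') : 1 / (Q : ℝ) ^ 2 ≤ |(h : ℝ) / q - (h' : ℝ) / q'| := by
  have hq0 : (0 : ℝ) < q := by exact_mod_cast hq
  have hq0' : (0 : ℝ) < q' := by exact_mod_cast hq'
  have hQ : (q : ℝ) ≤ Q := by exact_mod_cast hqQ
  have hQ' : (q' : ℝ) ≤ Q := by exact_mod_cast hqQ'
  have e : (h : ℝ) / q - (h' : ℝ) / q' = (((h : ℤ) * q' - h' * q : ℤ) : ℝ) / (q * q') := by
    push_cast
    field_simp
  have hz : ((h : ℤ) * q' - h' * q : ℤ) ≠ 0 := by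
    intro h0
    apply hne
    rw [h0] at e
    simp only [Int.cast_zero, zero_div] at e
    linarith
  have h1 : (1 : ℝ) ≤ |(((h : ℤ) * q' - h' * q : ℤ) : ℝ)| := by
    rw [← Int.cast_abs]
    exact_mod_cast Int.one_le_abs hz
  rw [e, abs_div, abs_of_pos (mul_pos hq0 hq0')]
  have h2 : (q : ℝ) * q' ≤ (Q : ℝ) ^ 2 := by
    rw [sq]
    exact mul_le_mul hQ hQ' hq0'.le (by linarith)
  calc 1 / (Q : ℝ) ^ 2 ≤ 1 / ((q : ℝ) * q') :=
        one_div_le_one_div_of_le (mul_pos hq0 hq0') h2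
    _ ≤ |(((h : ℤ) * q' - h' * q : ℤ) : ℝ)| / ((q : ℝ) * q') :=
        div_le_div_of_nonneg_right h1 (mul_pos hq0 hq0').le

/-- Reduced fractions in `[0,1)` determine numerator and denominator.
Proof: `h q' = h' q` in `ℕ`; coprimality gives `q ∣ q'` and `q' ∣ q`, so `q = q'` and `h = h'`. -/
theorem farey_inj (q q' h h' : ℕ) (hq : 1 ≤ q) (hq' : 1 ≤ q') (hc : Nat.Coprime q h)
    (hc' : Nat.Coprime q' h') (he : (h : ℝ) / q = (h' : ℝ) / q') : q = q' ∧ h = h' := by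
  have hq0 : (0 : ℝ) < q := by exact_mod_cast hq
  have hq0' : (0 : ℝ) < q' := by exact_mod_cast hq'
  have e : h * q' = h' * q := by
    have h1 : (h : ℝ) * q' = h' * q := by
      rw [div_eq_div_iff hq0.ne' hq0'.ne'] at he
      exact he
    exact_mod_cast h1
  have d1 : q ∣ q' := by
    have h1 : q ∣ h * q' := ⟨h', by rw [e, mul_comm]⟩
    exact hc.dvd_of_dvd_mul_left h1
  have d2 : q' ∣ q := by
    have h1 : q' ∣ h' * q := ⟨h, by rw [← e, mul_comm]⟩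
    exact hc'.dvd_of_dvd_mul_left h1
  have hqq : q = q' := Nat.dvd_antisymm d1 d2
  refine ⟨hqq, ?_⟩
  rw [← hqq] at e
  exact Nat.eq_of_mul_eq_mul_right hq e

/-- **Additive large sieve.**
Proof.  If `Q = 0` the left side is `0`.  Let `Q ≥ 1`, `P` the image of the set of pairs `(q, h)`,
`1 ≤ q ≤ Q`, `h < q`, `(q, h) = 1`, under `(q, h) ↦ h/q`; the map is injective on it (`farey_inj`), so the left side
is a sum over `P` (`Finset.sum_image`, `Finset.sum_sigma'`).  `ls_points` with `δ = 1/Q^2`, `c = -1/(2 Q^2)`: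
`0 ≤ h/q ≤ 1 - 1/q ≤ 1 - 1/Q ≤ c + 1 - δ/2 = 1 - 1/Q^2`.  `1/δ + 10 N = Q^2 + 10 N ≤ 10 (N + Q^2)`. -/
theorem farey_ls (Q M N : ℕ) (hN : 1 ≤ N) (a : ℕ → ℂ) :
    ∑ q ∈ Icc 1 Q, ∑ h ∈ (range q).filter (Nat.Coprime q),
        ‖∑ n ∈ Ioc M (M + N), a n * ee (n * ((h : ℝ) / q))‖ ^ 2
      ≤ 10 * (N + (Q : ℝ) ^ 2) * ∑ n ∈ Ioc M (M + N), ‖a n‖ ^ 2 := by
  rcases Nat.eq_zero_or_pos Q with rfl | hQ
  · have e : (Icc 1 0 : Finset ℕ) = ∅ := by simp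
    rw [e, Finset.sum_empty]
    have : 0 ≤ ∑ n ∈ Ioc M (M + N), ‖a n‖ ^ 2 := Finset.sum_nonneg fun n _ => by positivity
    positivity
  set S : Finset (Σ _ : ℕ, ℕ) := (Icc 1 Q).sigma fun q => (range q).filter (Nat.Coprime q) with hS
  set g : (Σ _ : ℕ, ℕ) → ℝ := fun x => (x.2 : ℝ) / x.1 with hg
  have hmem : ∀ x ∈ S, (1 ≤ x.1 ∧ x.1 ≤ Q) ∧ x.2 < x.1 ∧ Nat.Coprime x.1 x.2 := by
    intro x hx
    rw [hS, Finset.mem_sigma, Finset.mem_Icc, Finset.mem_filter, Finset.mem_range] at hx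
    exact hx
  have hinj : ∀ x ∈ S, ∀ y ∈ S, g x = g y → x = y := by
    rintro ⟨q, h⟩ hx ⟨q', h'⟩ hy he
    obtain ⟨h1, -, h3⟩ := hmem _ hx
    obtain ⟨h1', -, h3'⟩ := hmem _ hy
    obtain ⟨rfl, rfl⟩ := farey_inj q q' h h' h1.1 h1'.1 h3 h3' he
    rfl
  set P : Finset ℝ := S.image g with hP
  have hQ1 : (1 : ℝ) ≤ Q := by exact_mod_cast hQ
  have hQ0 : (0 : ℝ) < Q := by linarith
  have hδ : (0 : ℝ) < 1 / (Q : ℝ) ^ 2 := by positivity
  have hδQ : 1 / (Q : ℝ) ^ 2 ≤ 1 / (Q : ℝ) := by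
    apply one_div_le_one_div_of_le hQ0
    nlinarith
  have hmain := ls_points P (1 / (Q : ℝ) ^ 2) (-(1 / (2 * (Q : ℝ) ^ 2))) hδ
    (by
      intro α hα
      obtain ⟨x, hx, rfl⟩ := Finset.mem_image.1 hα
      obtain ⟨h1, h2, -⟩ := hmem x hx
      have hx0 : (0 : ℝ) < x.1 := by exact_mod_cast h1.1
      have hxQ : (x.1 : ℝ) ≤ Q := by exact_mod_cast h1.2
      have h3 : (x.2 : ℝ) + 1 ≤ x.1 := by exact_mod_cast h2
      have e1 : 1 / (2 * (Q : ℝ) ^ 2) = 1 / (Q : ℝ) ^ 2 / 2 := by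
        rw [one_div, one_div, mul_inv]; ring
      have h4 : (0 : ℝ) ≤ (x.2 : ℝ) / x.1 := by positivity
      have h5 : (x.2 : ℝ) / x.1 ≤ 1 - 1 / (Q : ℝ) := by
        have h6 : (x.2 : ℝ) / x.1 ≤ 1 - 1 / (x.1 : ℝ) := by
          rw [div_le_iff₀ hx0, sub_mul, one_mul, one_div_mul_cancel hx0.ne']
          linarith
        have h7 : 1 / (Q : ℝ) ≤ 1 / (x.1 : ℝ) := one_div_le_one_div_of_le hx0 hxQ
        linarith
      simp only [hg]
      rw [e1]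
      constructor <;> linarith)
    (by
      intro α hα β hβ hne
      obtain ⟨x, hx, rfl⟩ := Finset.mem_image.1 hα
      obtain ⟨y, hy, rfl⟩ := Finset.mem_image.1 hβ
      obtain ⟨h1, -, -⟩ := hmem x hx
      obtain ⟨h1', -, -⟩ := hmem y hy
      exact farey_sep Q x.1 y.1 x.2 y.2 h1.1 h1'.1 h1.2 h1'.2 hne)
    M N hN a
  have hsum : ∑ q ∈ Icc 1 Q, ∑ h ∈ (range q).filter (Nat.Coprime q),
        ‖∑ n ∈ Ioc M (M + N), a n * ee (n * ((h : ℝ) / q))‖ ^ 2 =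
      ∑ α ∈ P, ‖∑ n ∈ Ioc M (M + N), a n * ee (n * α)‖ ^ 2 := by
    rw [hP, Finset.sum_image hinj, hS, Finset.sum_sigma]
  rw [hsum]
  refine hmain.trans ?_
  apply mul_le_mul_of_nonneg_right _ (Finset.sum_nonneg fun n _ => by positivity)
  rw [one_div_one_div]
  nlinarith [sq_nonneg (Q : ℝ)]

end BVM
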