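import Pool.Agent.helper24.BV.Defs
import Pool.Agent.helper66.VK.Defs

/-!
# BVM A2, LS5: Gauss sums of primitive characters and the passage to additive characters
-/

open Finset
open Pool.Agent.helper66.VK (ee)

namespace BVM

/-- Gauss sum of a character modulo `q` with the standard additive character. -/
noncomputable def tau {q : ℕ} [NeZero q] (χ : DirichletCharacter ℂ q) : ℂ :=
  gaussSum χ (ZMod.stdAddChar (N := q))

/-- `stdAddChar (n h) = e(n h / q)`: `ZMod.stdAddChar_coe`. -/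
theorem stdAddChar_nat {q : ℕ} [NeZero q] (n h : ℕ) :
    ZMod.stdAddChar ((n : ZMod q) * (h : ZMod q)) = ee (n * ((h : ℝ) / q)) := by
  have h1 : ((n : ZMod q) * (h : ZMod q)) = (((n * h : ℕ) : ℤ) : ZMod q) := by
    push_cast
    ring
  rw [h1, ZMod.stdAddChar_coe]
  unfold Pool.Agent.helper66.VK.ee
  congr 1
  push_cast
  ring

/-- For a primitive `χ`: `∑_b χ(b) e(n b/q) = χ⁻¹(n) τ(χ)`: `gaussSum_mulShift_of_isPrimitive`. -/
theorem sum_primitive {q : ℕ} [NeZero q] (χ : DirichletCharacter ℂ q) (hχ : χ.IsPrimitive)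
    (n : ZMod q) :
    ∑ b : ZMod q, χ b * ZMod.stdAddChar (n * b) = χ⁻¹ n * tau χ := by
  have h1 := gaussSum_mulShift_of_isPrimitive (ZMod.stdAddChar (N := q)) hχ n
  unfold tau
  rw [← h1]
  unfold gaussSum
  rfl

theorem Gauss_conj {q : ℕ} [NeZero q] (x : ZMod q) :
    (starRingEnd ℂ) (ZMod.stdAddChar x) = ZMod.stdAddChar (-x) := by
  rw [AddChar.map_neg_eq_inv]
  have h1 : ‖(ZMod.stdAddChar x : ℂ)‖ = 1 := by
    rw [ZMod.stdAddChar_apply]
    exact Circle.norm_coe _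
  rw [← Complex.inv_eq_conj h1]

theorem Gauss_orth {q : ℕ} [NeZero q] (b : ZMod q) :
    ∑ n : ZMod q, (ZMod.stdAddChar (n * b) : ℂ) = if b = 0 then (q : ℂ) else 0 := by
  have h1 := AddChar.sum_mulShift b (ZMod.isPrimitive_stdAddChar q)
  rw [h1, ZMod.card]
  split_ifs <;> simp

/-- `|τ(χ)|^2 = q` for a primitive character.
Proof.  By `sum_primitive`, `∑_n |∑_b χ(b) e(n b/q)|^2 = |τ(χ)|^2 ∑_n |χ⁻¹(n)|^2`.  The left side is
`∑_{b,b'} χ(b) conj χ(b') ∑_n e(n (b-b')/q) = q ∑_b |χ(b)|^2` (orthogonality of additive characters: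
`AddChar.sum_mulShift` with `ZMod.isPrimitive_stdAddChar`; or Parseval for `ZMod.dft`).
`|χ⁻¹(n)| = |χ(n)|` (`1` for units, `0` otherwise) and `∑_n |χ(n)|^2 ≥ |χ(1)|^2 = 1 > 0`, so cancel.
(`conj (stdAddChar x) = stdAddChar (-x)`.) -/
theorem norm_tau_sq {q : ℕ} [NeZero q] (χ : DirichletCharacter ℂ q) (hχ : χ.IsPrimitive) :
    ‖tau χ‖ ^ 2 = q := by
  classical
  have hinv : ∀ n : ZMod q, χ⁻¹ n = (starRingEnd ℂ) (χ n) := fun n =>
    (MulChar.star_apply' χ n).symm
  set S : ℂ := ∑ b : ZMod q, χ b * (starRingEnd ℂ) (χ b) with hS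
  -- left side
  have hL : ∑ n : ZMod q, (∑ b : ZMod q, χ b * ZMod.stdAddChar (n * b)) *
      (starRingEnd ℂ) (∑ b : ZMod q, χ b * ZMod.stdAddChar (n * b)) = (q : ℂ) * S := by
    have h1 : ∀ n : ZMod q, (∑ b : ZMod q, χ b * ZMod.stdAddChar (n * b)) *
        (starRingEnd ℂ) (∑ b : ZMod q, χ b * ZMod.stdAddChar (n * b)) =
        ∑ b : ZMod q, ∑ c : ZMod q, (χ b * (starRingEnd ℂ) (χ c)) *
          ZMod.stdAddChar (n * (b - c)) := by
      intro n
      rw [map_sum, Finset.sum_mul_sum]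
      refine Finset.sum_congr rfl fun b _ => Finset.sum_congr rfl fun c _ => ?_
      have h5 : (starRingEnd ℂ) (χ c * ZMod.stdAddChar (n * c)) =
          (starRingEnd ℂ) (χ c) * ZMod.stdAddChar (-(n * c)) := by
        rw [map_mul (starRingEnd ℂ), Gauss_conj]
      have h2 : n * (b - c) = n * b + -(n * c) := by ring
      rw [h5, h2, AddChar.map_add_eq_mul]
      ring
    rw [Finset.sum_congr rfl fun n _ => h1 n, Finset.sum_comm]
    rw [hS, Finset.mul_sum]
    refine Finset.sum_congr rfl fun b _ => ?_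
    rw [Finset.sum_comm]
    have h3 : ∀ c : ZMod q, ∑ n : ZMod q, (χ b * (starRingEnd ℂ) (χ c)) *
        ZMod.stdAddChar (n * (b - c)) =
        if b = c then (q : ℂ) * (χ b * (starRingEnd ℂ) (χ c)) else 0 := by
      intro c
      rw [← Finset.mul_sum, Gauss_orth]
      by_cases h : b = c
      · subst h
        simp
        ring
      · rw [if_neg h, if_neg (sub_ne_zero.2 h), mul_zero]
    rw [Finset.sum_congr rfl fun c _ => h3 c]
    simp
  have hR : ∑ n : ZMod q, (∑ b : ZMod q, χ b * ZMod.stdAddChar (n * b)) *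
      (starRingEnd ℂ) (∑ b : ZMod q, χ b * ZMod.stdAddChar (n * b)) =
      (tau χ * (starRingEnd ℂ) (tau χ)) * S := by
    rw [hS, Finset.mul_sum]
    refine Finset.sum_congr rfl fun n _ => ?_
    rw [sum_primitive χ hχ n, hinv, map_mul, Complex.conj_conj]
    ring
  have hS0 : S ≠ 0 := by
    have h1 : S = ((∑ b : ZMod q, ‖χ b‖ ^ 2 : ℝ) : ℂ) := by
      rw [hS]
      push_cast
      refine Finset.sum_congr rfl fun b _ => ?_
      rw [Complex.mul_conj, Complex.normSq_eq_norm_sq]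
      push_cast
      rfl
    rw [h1]
    have h2 : (1 : ℝ) ≤ ∑ b : ZMod q, ‖χ b‖ ^ 2 := by
      calc (1 : ℝ) = ‖χ 1‖ ^ 2 := by simp
        _ ≤ _ := Finset.single_le_sum (f := fun b : ZMod q => ‖χ b‖ ^ 2)
          (fun b _ => by positivity) (Finset.mem_univ 1)
    intro h
    have h3 : (∑ b : ZMod q, ‖χ b‖ ^ 2 : ℝ) = 0 := by exact_mod_cast h
    rw [h3] at h2
    linarith
  have h4 : tau χ * (starRingEnd ℂ) (tau χ) = (q : ℂ) := by
    apply mul_right_cancel₀ hS0
    rw [← hR, hL]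
  rw [Complex.mul_conj, Complex.normSq_eq_norm_sq] at h4
  exact_mod_cast h4

/-- The inverse of a primitive character is primitive.  (`χ⁻¹` factors through `d` iff `χ` does.) -/
theorem isPrimitive_inv {q : ℕ} [NeZero q] (χ : DirichletCharacter ℂ q) (hχ : χ.IsPrimitive) :
    (χ⁻¹).IsPrimitive := by
  have key : ∀ (ψ : DirichletCharacter ℂ q) (d : ℕ), ψ.FactorsThrough d → ψ⁻¹.FactorsThrough d := by
    intro ψ d h
    obtain ⟨hd, ψ₀, h0⟩ := h
    refine ⟨hd, ψ₀⁻¹, ?_⟩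
    rw [map_inv, ← h0]
  have hset : χ⁻¹.conductorSet = χ.conductorSet := by
    ext d
    constructor
    · intro h
      have h2 := key χ⁻¹ d h
      rwa [inv_inv] at h2
    · intro h
      exact key χ d h
  unfold DirichletCharacter.IsPrimitive DirichletCharacter.conductor at hχ ⊢
  rw [hset]
  exact hχ

/-- For a primitive `χ`, natural `n`: `χ(n) τ(χ⁻¹) = ∑_{h < q, (h,q)=1} χ⁻¹(h) e(n h/q)`.
Proof: `sum_primitive` for `χ⁻¹` (`isPrimitive_inv`), the sum over `ZMod q` is a sum over `h ∈ range q`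
(e.g. `Finset.sum_bij` with `ZMod.val`, `ZMod.natCast_zmod_val`), the terms with `(h,q) > 1` vanish
(`χ⁻¹` is zero at nonunits; `ZMod.isUnit_iff_coprime`), and `stdAddChar_nat`. -/
theorem chi_mul_tau {q : ℕ} [NeZero q] (χ : DirichletCharacter ℂ q) (hχ : χ.IsPrimitive) (n : ℕ) :
    χ (n : ZMod q) * tau χ⁻¹ =
      ∑ h ∈ (range q).filter (Nat.Coprime q), χ⁻¹ (h : ZMod q) * ee (n * ((h : ℝ) / q)) := by
  have h1 := sum_primitive χ⁻¹ (isPrimitive_inv χ hχ) (n : ZMod q)
  rw [inv_inv] at h1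
  rw [← h1]
  have h2 : ∑ b : ZMod q, χ⁻¹ b * ZMod.stdAddChar ((n : ZMod q) * b) =
      ∑ h ∈ range q, χ⁻¹ (h : ZMod q) * ZMod.stdAddChar ((n : ZMod q) * (h : ZMod q)) := by
    refine Finset.sum_nbij' (fun b => b.val) (fun h => (h : ZMod q)) ?_ ?_ ?_ ?_ ?_
    · intro b _
      exact Finset.mem_range.2 (ZMod.val_lt b)
    · intro h _
      exact Finset.mem_univ _
    · intro b _
      exact ZMod.natCast_zmod_val b
    · intro h hh
      exact ZMod.val_cast_of_lt (Finset.mem_range.1 hh)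
    · intro b _
      rw [ZMod.natCast_zmod_val b]
  rw [h2, Finset.sum_filter]
  refine Finset.sum_congr rfl fun h _ => ?_
  rw [stdAddChar_nat]
  split_ifs with hc
  · rfl
  · have h3 : ¬ IsUnit (h : ZMod q) := by
      rw [ZMod.isUnit_iff_coprime]
      intro h4
      exact hc h4.symm
    rw [MulChar.map_nonunit _ h3, zero_mul]

end BVM
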