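import Pool.Agent.helper66.VK.Defs

/-!
# BVM A2, LS1: the Gallagher-Sobolev inequality

(`ee t = exp (2 pi i t)` is in `Pool/Agent/helper66/VK/Defs.lean`, with `ee_add`, `norm_ee`, ... .)
-/

open Finset MeasureTheory intervalIntegral

namespace BVM

private theorem ls1_half (G G' : ℝ → ℂ) (hG : ∀ t, HasDerivAt G (G' t) t) (hc : Continuous G')
    (a p q : ℝ) (hpq : p ≤ q) (c : ℝ) (hc1 : ∀ t ∈ Set.Icc p q, |t - a| ≤ c) :
    ‖(q - a) • G q - (p - a) • G p‖ ≤ (∫ t in p..q, ‖G t‖) + c * ∫ t in p..q, ‖G' t‖ := by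
  have hGc : Continuous G := continuous_iff_continuousAt.2 fun t => (hG t).continuousAt
  have hd : ∀ t ∈ Set.uIcc p q, HasDerivAt (fun t : ℝ => (t - a) • G t)
      ((t - a) • G' t + (1 : ℝ) • G t) t := by
    intro t _
    exact ((hasDerivAt_id t).sub_const a).smul (hG t)
  have hcont : Continuous (fun t : ℝ => (t - a) • G' t + (1 : ℝ) • G t) := by fun_prop
  have h1 := integral_eq_sub_of_hasDerivAt hd (hcont.intervalIntegrable p q)
  have i1 : IntervalIntegrable (fun t => ‖G t‖) volume p q := hGc.norm.intervalIntegrable p q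
  have i2 : IntervalIntegrable (fun t => c * ‖G' t‖) volume p q :=
    (continuous_const.mul hc.norm).intervalIntegrable p q
  rw [← h1, ← intervalIntegral.integral_const_mul, ← intervalIntegral.integral_add i1 i2]
  refine (intervalIntegral.norm_integral_le_integral_norm hpq).trans ?_
  refine intervalIntegral.integral_mono_on hpq (hcont.norm.intervalIntegrable p q)
    (i1.add i2) ?_
  intro t ht
  calc ‖(t - a) • G' t + (1 : ℝ) • G t‖ ≤ ‖(t - a) • G' t‖ + ‖(1 : ℝ) • G t‖ := norm_add_le _ _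
    _ = |t - a| * ‖G' t‖ + ‖G t‖ := by rw [norm_smul, norm_smul, Real.norm_eq_abs]; simp
    _ ≤ c * ‖G' t‖ + ‖G t‖ := by
      have := mul_le_mul_of_nonneg_right (hc1 t ht) (norm_nonneg (G' t))
      linarith
    _ = ‖G t‖ + c * ‖G' t‖ := by ring

/-- **Sobolev-Gallagher, linear form.**  For a `C^1` function `G : ℝ → ℂ` and `d > 0`
`‖G x‖ ≤ (1/d) ∫_{x-d/2}^{x+d/2} ‖G‖ + (1/2) ∫_{x-d/2}^{x+d/2} ‖G'‖`.

Proof.  Integration by parts (or: derivative of `t ↦ (t - (x - d/2)) G t`):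
`∫_{x-d/2}^{x} (t - (x-d/2)) G'(t) dt = (d/2) G x - ∫_{x-d/2}^{x} G`, and
`∫_{x}^{x+d/2} (t - (x+d/2)) G'(t) dt = (d/2) G x - ∫_{x}^{x+d/2} G`.
Add: `d G x = ∫_{x-d/2}^{x+d/2} G + ∫_{x-d/2}^x (t-x+d/2) G' + ∫_x^{x+d/2} (t-x-d/2) G'`; on the two intervals
the weights are at most `d/2` in absolute value.  Divide by `d`, triangle inequality
(`intervalIntegral.norm_integral_le_integral_norm`, `integral_add_adjacent_intervals`; everything is
continuous, hence interval integrable). -/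
theorem sobolev_one (G G' : ℝ → ℂ) (hG : ∀ t, HasDerivAt G (G' t) t) (hc : Continuous G')
    (x d : ℝ) (hd : 0 < d) :
    ‖G x‖ ≤ (1 / d) * (∫ t in (x - d / 2)..(x + d / 2), ‖G t‖)
      + (1 / 2) * ∫ t in (x - d / 2)..(x + d / 2), ‖G' t‖ := by
  have hGc : Continuous G := continuous_iff_continuousAt.2 fun t => (hG t).continuousAt
  have h1 := ls1_half G G' hG hc (x - d / 2) (x - d / 2) x (by linarith) (d / 2) (by
    intro t ht
    rw [abs_le]
    constructor
    · linarith [ht.1]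
    · linarith [ht.2])
  have h2 := ls1_half G G' hG hc (x + d / 2) x (x + d / 2) (by linarith) (d / 2) (by
    intro t ht
    rw [abs_le]
    constructor
    · linarith [ht.1]
    · linarith [ht.2])
  have e1 : (x - (x - d / 2)) • G x - (x - d / 2 - (x - d / 2)) • G (x - d / 2) = (d / 2) • G x := by
    rw [sub_self, zero_smul, sub_zero]
    congr 1
    ring
  have e2 : (x + d / 2 - (x + d / 2)) • G (x + d / 2) - (x - (x + d / 2)) • G x
      = (d / 2) • G x := by
    rw [sub_self, zero_smul, zero_sub, ← neg_smul]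
    congr 1
    ring
  rw [e1, norm_smul, Real.norm_eq_abs, abs_of_pos (by linarith : 0 < d / 2)] at h1
  rw [e2, norm_smul, Real.norm_eq_abs, abs_of_pos (by linarith : 0 < d / 2)] at h2
  have a1 : (∫ t in (x - d / 2)..x, ‖G t‖) + (∫ t in x..(x + d / 2), ‖G t‖)
      = ∫ t in (x - d / 2)..(x + d / 2), ‖G t‖ :=
    integral_add_adjacent_intervals (hGc.norm.intervalIntegrable _ _)
      (hGc.norm.intervalIntegrable _ _)
  have a2 : (∫ t in (x - d / 2)..x, ‖G' t‖) + (∫ t in x..(x + d / 2), ‖G' t‖)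
      = ∫ t in (x - d / 2)..(x + d / 2), ‖G' t‖ :=
    integral_add_adjacent_intervals (hc.norm.intervalIntegrable _ _)
      (hc.norm.intervalIntegrable _ _)
  rw [← a1, ← a2]
  have key : d * ‖G x‖ ≤ ((∫ t in (x - d / 2)..x, ‖G t‖) + (∫ t in x..(x + d / 2), ‖G t‖))
      + d / 2 * ((∫ t in (x - d / 2)..x, ‖G' t‖) + (∫ t in x..(x + d / 2), ‖G' t‖)) := by
    linarith
  have hfin : ‖G x‖ ≤ (((∫ t in (x - d / 2)..x, ‖G t‖) + (∫ t in x..(x + d / 2), ‖G t‖))
      + d / 2 * ((∫ t in (x - d / 2)..x, ‖G' t‖) + (∫ t in x..(x + d / 2), ‖G' t‖))) / d := by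
    rw [le_div_iff₀ hd]
    linarith
  refine hfin.trans (le_of_eq ?_)
  field_simp

/-- **Gallagher's inequality.**  Apply `sobolev_one` to `G = F^2`, `G' = 2 F F'`,
`‖G‖ = ‖F‖^2`, `‖G'‖ = 2 ‖F‖ ‖F'‖`. -/
theorem gallagher (F F' : ℝ → ℂ) (hF : ∀ t, HasDerivAt F (F' t) t) (hc : Continuous F')
    (x d : ℝ) (hd : 0 < d) :
    ‖F x‖ ^ 2 ≤ (1 / d) * (∫ t in (x - d / 2)..(x + d / 2), ‖F t‖ ^ 2)
      + ∫ t in (x - d / 2)..(x + d / 2), ‖F t‖ * ‖F' t‖ := by
  have hFc : Continuous F := continuous_iff_continuousAt.2 fun t => (hF t).continuousAt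
  have h := sobolev_one (fun t => F t ^ 2) (fun t => 2 * F t * F' t) (by
    intro t
    have h0 := (hF t).mul (hF t)
    have e1 : (fun t => F t ^ 2) = F * F := by
      funext s
      simp [pow_two]
    have e2 : 2 * F t * F' t = F' t * F t + F t * F' t := by ring
    show HasDerivAt (fun t => F t ^ 2) (2 * F t * F' t) t
    rw [e1, e2]
    exact h0) (by fun_prop) x d hd
  simp only [norm_pow, norm_mul, Complex.norm_ofNat] at h
  have e : (1 / 2 : ℝ) * ∫ t in (x - d / 2)..(x + d / 2), 2 * ‖F t‖ * ‖F' t‖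
      = ∫ t in (x - d / 2)..(x + d / 2), ‖F t‖ * ‖F' t‖ := by
    rw [← intervalIntegral.integral_const_mul]
    refine intervalIntegral.integral_congr ?_
    intro t _
    ring
  rw [e] at h
  exact h

end BVM
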