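import Pool.Agent.helper66.VK.Defs

/-!
# BVM A2, LS3: Parseval on an interval of length 1 (proofs: helper51)

(`ee t = exp (2 pi i t)` is in `Pool/Agent/helper66/VK/Defs.lean`, with `ee_add`, `ee_neg`, `ee_int`,
`norm_ee`, `conj_ee`.)
-/

open Finset MeasureTheory intervalIntegral
open Pool.Agent.helper66.VK (ee)

namespace BVM

private lemma LS3_cont_ee (x : ℝ) : Continuous fun t : ℝ => ee (x * t) := by
  unfold Pool.Agent.helper66.VK.ee
  fun_prop

private lemma LS3_cont (S : Finset ℤ) (a : ℤ → ℂ) :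
    Continuous fun t : ℝ => ∑ n ∈ S, a n * ee (n * t) :=
  continuous_finset_sum _ fun n _ => continuous_const.mul (LS3_cont_ee n)

/-- Orthogonality: for an integer `k`, `∫_c^{c+1} e(k t) dt = 1` if `k = 0`, else `0`.
Proof: for `k ≠ 0` a primitive is `e(k t) / (2 pi i k)` and `e(k (c+1)) = e(k c) e(k) = e(k c)`. -/
theorem integral_ee (c : ℝ) (k : ℤ) :
    ∫ t in c..(c + 1), ee (k * t) = if k = 0 then 1 else 0 := by
  by_cases hk : k = 0
  · subst hk
    simp [Pool.Agent.helper66.VK.ee_zero]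
  · rw [if_neg hk]
    set z : ℂ := (k : ℂ) * (2 * Real.pi * Complex.I) with hz
    have hkC : (k : ℂ) ≠ 0 := by exact_mod_cast hk
    have hz0 : z ≠ 0 := by
      rw [hz]
      exact mul_ne_zero hkC Complex.two_pi_I_ne_zero
    have h1 : (fun t : ℝ => ee (k * t)) = fun t : ℝ => Complex.exp (z * t) := by
      funext t
      unfold Pool.Agent.helper66.VK.ee
      congr 1
      rw [hz]
      push_cast
      ring
    rw [h1, integral_exp_mul_complex hz0]
    have h2 : Complex.exp (z * ((c + 1 : ℝ) : ℂ)) = Complex.exp (z * c) := by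
      have e1 : z * ((c + 1 : ℝ) : ℂ) = z * c + z := by push_cast; ring
      rw [e1, Complex.exp_add, hz, Complex.exp_int_mul_two_pi_mul_I, mul_one]
    rw [h2, sub_self, zero_div]

/-- **Parseval.**  `∫_c^{c+1} |∑_{n ∈ S} a_n e(n t)|^2 dt = ∑ |a_n|^2` for a finite set `S` of integers.
Proof: `‖z‖^2 = z * conj z` (as complex numbers), expand the double sum, `e(n t) conj (e(m t)) = e((n-m) t)`,
interchange finite sums and the integral (`intervalIntegral.integral_finset_sum`, continuity),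
`integral_ee`. -/
theorem parseval (c : ℝ) (S : Finset ℤ) (a : ℤ → ℂ) :
    ∫ t in c..(c + 1), ‖∑ n ∈ S, a n * ee (n * t)‖ ^ 2 = ∑ n ∈ S, ‖a n‖ ^ 2 := by
  apply Complex.ofReal_injective
  rw [← intervalIntegral.integral_ofReal]
  have h1 : (fun t : ℝ => (((‖∑ n ∈ S, a n * ee (n * t)‖ ^ 2 : ℝ)) : ℂ)) =
      fun t : ℝ => ∑ n ∈ S, ∑ m ∈ S, (a n * (starRingEnd ℂ) (a m)) * ee (((n - m : ℤ) : ℝ) * t) := by
    funext t
    rw [← Complex.normSq_eq_norm_sq, ← Complex.mul_conj, map_sum, Finset.sum_mul_sum]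
    refine Finset.sum_congr rfl fun n _ => Finset.sum_congr rfl fun m _ => ?_
    rw [map_mul, Pool.Agent.helper66.VK.conj_ee]
    have e1 : (((n - m : ℤ) : ℝ) * t) = n * t + -(m * t) := by push_cast; ring
    rw [e1, Pool.Agent.helper66.VK.ee_add]
    ring
  rw [h1, intervalIntegral.integral_finset_sum]
  · have h2 : ∀ n ∈ S, ∫ t in c..(c + 1), ∑ m ∈ S, (a n * (starRingEnd ℂ) (a m)) *
        ee (((n - m : ℤ) : ℝ) * t) = ((‖a n‖ ^ 2 : ℝ) : ℂ) := by
      intro n hn
      rw [intervalIntegral.integral_finset_sum]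
      · have h3 : ∀ m ∈ S, ∫ t in c..(c + 1), (a n * (starRingEnd ℂ) (a m)) *
            ee (((n - m : ℤ) : ℝ) * t) = if n = m then a n * (starRingEnd ℂ) (a m) else 0 := by
          intro m _
          rw [intervalIntegral.integral_const_mul, integral_ee]
          by_cases h : n = m
          · rw [if_pos (sub_eq_zero.2 h), if_pos h, mul_one]
          · rw [if_neg (fun h' => h (sub_eq_zero.1 h')), if_neg h, mul_zero]
        rw [Finset.sum_congr rfl h3, Finset.sum_ite_eq, if_pos hn, Complex.mul_conj,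
          Complex.normSq_eq_norm_sq]
      · intro m _
        exact (continuous_const.mul (LS3_cont_ee _)).intervalIntegrable _ _
    rw [Finset.sum_congr rfl h2, Complex.ofReal_sum]
  · intro n _
    exact (continuous_finset_sum _ fun m _ =>
      continuous_const.mul (LS3_cont_ee _)).intervalIntegrable _ _

/-- Cauchy-Schwarz for continuous functions on an interval:
`∫ f g ≤ √(∫ f^2) √(∫ g^2)`, in the form needed: for trigonometric polynomials
`F t = ∑ a_n e(n t)`, `F' t = ∑ b_n e(n t)`: `∫_c^{c+1} ‖F‖ ‖F'‖ ≤ √(∑ |a_n|^2) √(∑ |b_n|^2)`.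
Proof: for every `s > 0`, `‖F‖ ‖F'‖ ≤ (s/2) ‖F‖^2 + (1/(2s)) ‖F'‖^2` and optimise in `s` (take
`s = √B/√A`; if `A = 0` or `B = 0` all coefficients vanish and so does the left side), or use
`MeasureTheory.integral_mul_le_Lp_mul_Lq_of_nonneg` with `p = q = 2`.  Use `parseval`. -/
theorem cauchy_trig (c : ℝ) (S : Finset ℤ) (a b : ℤ → ℂ) :
    ∫ t in c..(c + 1), ‖∑ n ∈ S, a n * ee (n * t)‖ * ‖∑ n ∈ S, b n * ee (n * t)‖
      ≤ √(∑ n ∈ S, ‖a n‖ ^ 2) * √(∑ n ∈ S, ‖b n‖ ^ 2) := by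
  set A : ℝ := ∑ n ∈ S, ‖a n‖ ^ 2 with hA
  set B : ℝ := ∑ n ∈ S, ‖b n‖ ^ 2 with hB
  have hA0 : 0 ≤ A := Finset.sum_nonneg fun _ _ => by positivity
  have hB0 : 0 ≤ B := Finset.sum_nonneg fun _ _ => by positivity
  have hzero : ∀ d : ℤ → ℂ, (∑ n ∈ S, ‖d n‖ ^ 2 = 0) →
      ∀ t : ℝ, ∑ n ∈ S, d n * ee (n * t) = 0 := by
    intro d hd t
    refine Finset.sum_eq_zero fun n hn => ?_
    have h1 := (Finset.sum_eq_zero_iff_of_nonneg (fun n _ => by positivity)).1 hd n hn
    have h2 : d n = 0 := by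
      rw [← norm_eq_zero]
      exact pow_eq_zero_iff (two_ne_zero) |>.1 h1
    rw [h2, zero_mul]
  rcases hA0.eq_or_lt with hA1 | hA1
  · have h1 := hzero a hA1.symm
    simp only [h1, norm_zero, zero_mul, intervalIntegral.integral_zero]
    positivity
  rcases hB0.eq_or_lt with hB1 | hB1
  · have h1 := hzero b hB1.symm
    simp only [h1, norm_zero, mul_zero, intervalIntegral.integral_zero]
    positivity
  have hsA : 0 < √A := Real.sqrt_pos.2 hA1
  have hsB : 0 < √B := Real.sqrt_pos.2 hB1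
  have hFa := (LS3_cont S a).norm
  have hFb := (LS3_cont S b).norm
  have key : ∀ x y : ℝ, x * y ≤ √B / √A / 2 * x ^ 2 + √A / √B / 2 * y ^ 2 := by
    intro x y
    have e1 : √B / √A / 2 * x ^ 2 + √A / √B / 2 * y ^ 2 - x * y =
        (√B * x - √A * y) ^ 2 / (2 * √A * √B) := by
      field_simp
      ring
    have e2 : 0 ≤ (√B * x - √A * y) ^ 2 / (2 * √A * √B) := by positivity
    linarith
  have hI1 : IntervalIntegrable (fun t : ℝ => √B / √A / 2 * ‖∑ n ∈ S, a n * ee (n * t)‖ ^ 2)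
      volume c (c + 1) := (continuous_const.mul (hFa.pow 2)).intervalIntegrable _ _
  have hI2 : IntervalIntegrable (fun t : ℝ => √A / √B / 2 * ‖∑ n ∈ S, b n * ee (n * t)‖ ^ 2)
      volume c (c + 1) := (continuous_const.mul (hFb.pow 2)).intervalIntegrable _ _
  have hI3 : IntervalIntegrable (fun t : ℝ => ‖∑ n ∈ S, a n * ee (n * t)‖ *
      ‖∑ n ∈ S, b n * ee (n * t)‖) volume c (c + 1) := (hFa.mul hFb).intervalIntegrable _ _
  have hle : ∫ t in c..(c + 1), ‖∑ n ∈ S, a n * ee (n * t)‖ * ‖∑ n ∈ S, b n * ee (n * t)‖ ≤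
      ∫ t in c..(c + 1), (√B / √A / 2 * ‖∑ n ∈ S, a n * ee (n * t)‖ ^ 2 +
        √A / √B / 2 * ‖∑ n ∈ S, b n * ee (n * t)‖ ^ 2) :=
    intervalIntegral.integral_mono_on (by linarith) hI3 (hI1.add hI2) fun t _ => key _ _
  refine hle.trans (le_of_eq ?_)
  rw [intervalIntegral.integral_add hI1 hI2,
    intervalIntegral.integral_const_mul, intervalIntegral.integral_const_mul, parseval, parseval,
    ← hA, ← hB]
  have e3 : A = √A * √A := (Real.mul_self_sqrt hA0).symm
  have e4 : B = √B * √B := (Real.mul_self_sqrt hB0).symm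
  have e5 : √B / √A / 2 * A = √A * √B / 2 := by
    conv_lhs => rw [e3]
    rw [Real.sqrt_mul_self hsA.le]
    field_simp
  have e6 : √A / √B / 2 * B = √A * √B / 2 := by
    conv_lhs => rw [e4]
    rw [Real.sqrt_mul_self hsB.le]
    field_simp
  rw [e5, e6]
  ring

end BVM
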