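import Pool.Agent.helper73.BV.LS1
import Pool.Agent.helper73.BV.LS3

/-!
# BVM A2, LS4: the large sieve inequality for separated points of an interval
-/

open Finset MeasureTheory intervalIntegral
open Pool.Agent.helper66.VK (ee)

namespace BVM

theorem LS4_hasDerivAt_ee (n : ℤ) (t : ℝ) :
    HasDerivAt (fun t : ℝ => ee (n * t)) (2 * Real.pi * Complex.I * n * ee (n * t)) t := by
  unfold Pool.Agent.helper66.VK.ee
  have h1 : HasDerivAt (fun t : ℝ => ((n * t : ℝ) : ℂ)) ((n : ℝ) : ℂ) t := by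
    have h := (hasDerivAt_id t).const_mul (n : ℝ)
    rw [mul_one] at h
    exact h.ofReal_comp
  have h2 := ((h1.const_mul (2 * (Real.pi : ℂ))).mul_const Complex.I).cexp
  have e : Complex.exp (2 * Real.pi * ((n * t : ℝ) : ℂ) * Complex.I)
      * (2 * Real.pi * ((n : ℝ) : ℂ) * Complex.I)
      = 2 * Real.pi * Complex.I * n * Complex.exp (2 * Real.pi * ((n * t : ℝ) : ℂ) * Complex.I) := by
    push_cast
    ring
  rw [e] at h2
  exact h2

theorem LS4_continuous_ee (n : ℤ) : Continuous (fun t : ℝ => ee (n * t)) := by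
  rw [continuous_iff_continuousAt]
  intro t
  exact (LS4_hasDerivAt_ee n t).continuousAt

/-- Disjoint intervals: `P` a finite set of reals, `δ`-separated, with `c + δ/2 ≤ α ≤ c + 1 - δ/2`
for all `α ∈ P`; `f ≥ 0` continuous.  Then `∑_{α ∈ P} ∫_{α-δ/2}^{α+δ/2} f ≤ ∫_c^{c+1} f`.

Proof.  `∫_{α-δ/2}^{α+δ/2} f = ∫ over Ioc (α-δ/2) (α+δ/2)` (`intervalIntegral.integral_of_le`); the sets
`Ioc (α-δ/2) (α+δ/2)` are pairwise disjoint (for `α < β` in `P`, `α + δ/2 ≤ β - δ/2`) and contained in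
`Ioc c (c+1)`; `MeasureTheory.integral_biUnion_finset` (sum of set integrals = integral over the union) and
`MeasureTheory.setIntegral_mono_set` (nonnegativity). -/
theorem sum_integral_le (P : Finset ℝ) (δ c : ℝ) (hδ : 0 < δ)
    (hP : ∀ α ∈ P, c + δ / 2 ≤ α ∧ α ≤ c + 1 - δ / 2)
    (hsep : ∀ α ∈ P, ∀ β ∈ P, α ≠ β → δ ≤ |α - β|)
    (f : ℝ → ℝ) (hf : Continuous f) (h0 : ∀ t, 0 ≤ f t) :
    ∑ α ∈ P, ∫ t in (α - δ / 2)..(α + δ / 2), f t ≤ ∫ t in c..(c + 1), f t := by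
  have hμ : ∀ α ∈ P, ∫ t in (α - δ / 2)..(α + δ / 2), f t
      = ∫ t in Set.Ioc (α - δ / 2) (α + δ / 2), f t := by
    intro α _
    exact intervalIntegral.integral_of_le (by linarith)
  rw [Finset.sum_congr rfl hμ]
  have hint : ∀ a b : ℝ, IntegrableOn f (Set.Ioc a b) := fun a b =>
    (hf.integrableOn_Icc (a := a) (b := b)).mono_set Set.Ioc_subset_Icc_self
  rw [← MeasureTheory.integral_biUnion_finset P (fun α _ => measurableSet_Ioc) ?_
    (fun α _ => hint _ _)]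
  · rw [intervalIntegral.integral_of_le (by linarith : c ≤ c + 1)]
    apply MeasureTheory.setIntegral_mono_set (hint _ _)
    · exact Filter.Eventually.of_forall h0
    · apply LE.le.eventuallyLE
      intro t ht
      simp only [Set.mem_iUnion, Set.mem_Ioc, exists_prop] at ht
      obtain ⟨α, hα, h1, h2⟩ := ht
      obtain ⟨h3, h4⟩ := hP α hα
      exact ⟨by linarith, by linarith⟩
  · intro α hα β hβ hne
    rw [Function.onFun, Set.disjoint_left]
    intro t h1 h2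
    have h3 := hsep α hα β hβ hne
    simp only [Set.mem_Ioc] at h1 h2
    have h4 : |α - β| < δ := by
      rw [abs_lt]
      constructor <;> linarith [h1.1, h1.2, h2.1, h2.2]
    linarith

/-- **Large sieve for separated points, symmetric range.**  `S` a finite set of integers with `|n| ≤ H`
for `n ∈ S`: `∑_{α ∈ P} |∑_{n ∈ S} a_n e(n α)|^2 ≤ (1/δ + 2 π H) ∑ |a_n|^2`.

Proof.  `F t = ∑ a_n e(n t)` has the derivative `F' t = ∑ (2 π i n a_n) e(n t)`.  `gallagher` at every `α ∈ P` with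
`d = δ`; sum over `P`; `sum_integral_le` twice (with `f = ‖F‖^2` and `f = ‖F‖ ‖F'‖`); `parseval` for the first
and `cauchy_trig` for the second: `∑ |2 π i n a_n|^2 ≤ (2 π H)^2 ∑ |a_n|^2` (so `√` of it is
`≤ 2 π H √(∑ |a_n|^2)`; note that `H ≥ 0` if `S` is nonempty; the case `S = ∅` is trivial). -/
theorem ls_symm (P : Finset ℝ) (δ c : ℝ) (hδ : 0 < δ)
    (hP : ∀ α ∈ P, c + δ / 2 ≤ α ∧ α ≤ c + 1 - δ / 2)
    (hsep : ∀ α ∈ P, ∀ β ∈ P, α ≠ β → δ ≤ |α - β|)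
    (S : Finset ℤ) (H : ℝ) (hH : ∀ n ∈ S, |(n : ℝ)| ≤ H) (a : ℤ → ℂ) :
    ∑ α ∈ P, ‖∑ n ∈ S, a n * ee (n * α)‖ ^ 2 ≤ (1 / δ + 2 * Real.pi * H) * ∑ n ∈ S, ‖a n‖ ^ 2 := by
  rcases S.eq_empty_or_nonempty with rfl | hne
  · simp
  obtain ⟨n0, hn0⟩ := hne
  have hH0 : 0 ≤ H := (abs_nonneg _).trans (hH n0 hn0)
  set F : ℝ → ℂ := fun t => ∑ n ∈ S, a n * ee (n * t) with hFdef
  set b : ℤ → ℂ := fun n => 2 * Real.pi * Complex.I * n * a n with hb
  set F' : ℝ → ℂ := fun t => ∑ n ∈ S, b n * ee (n * t) with hF'def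
  have hder : ∀ t, HasDerivAt F (F' t) t := by
    intro t
    have h := HasDerivAt.fun_sum (u := S) (A := fun (n : ℤ) (t : ℝ) => a n * ee (n * t))
      (A' := fun n => b n * ee (n * t)) (x := t) (fun n _ => by
        have h1 := (LS4_hasDerivAt_ee n t).const_mul (a n)
        have e : a n * (2 * Real.pi * Complex.I * n * ee (n * t)) = b n * ee (n * t) := by
          rw [hb]; ring
        rw [e] at h1
        exact h1)
    exact h
  have hcF : Continuous F :=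
    continuous_finsetSum _ fun n _ => continuous_const.mul (LS4_continuous_ee n)
  have hcF' : Continuous F' :=
    continuous_finsetSum _ fun n _ => continuous_const.mul (LS4_continuous_ee n)
  have h1 : ∑ α ∈ P, ‖F α‖ ^ 2 ≤ ∑ α ∈ P, ((1 / δ) * (∫ t in (α - δ / 2)..(α + δ / 2), ‖F t‖ ^ 2)
      + ∫ t in (α - δ / 2)..(α + δ / 2), ‖F t‖ * ‖F' t‖) :=
    Finset.sum_le_sum fun α _ => gallagher F F' hder hcF' α δ hδ
  rw [Finset.sum_add_distrib, ← Finset.mul_sum] at h1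
  have h2 := sum_integral_le P δ c hδ hP hsep (fun t => ‖F t‖ ^ 2) (hcF.norm.pow 2)
    (fun t => by positivity)
  have h3 := sum_integral_le P δ c hδ hP hsep (fun t => ‖F t‖ * ‖F' t‖) (hcF.norm.mul hcF'.norm)
    (fun t => by positivity)
  have h4 : ∫ t in c..(c + 1), ‖F t‖ ^ 2 = ∑ n ∈ S, ‖a n‖ ^ 2 := parseval c S a
  have h5 : ∫ t in c..(c + 1), ‖F t‖ * ‖F' t‖
      ≤ √(∑ n ∈ S, ‖a n‖ ^ 2) * √(∑ n ∈ S, ‖b n‖ ^ 2) := cauchy_trig c S a b
  set A := ∑ n ∈ S, ‖a n‖ ^ 2 with hA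
  have hA0 : 0 ≤ A := Finset.sum_nonneg fun n _ => by positivity
  have h6 : ∑ n ∈ S, ‖b n‖ ^ 2 ≤ (2 * Real.pi * H) ^ 2 * A := by
    rw [hA, Finset.mul_sum]
    apply Finset.sum_le_sum
    intro n hn
    have e1 : ‖b n‖ = 2 * Real.pi * |(n : ℝ)| * ‖a n‖ := by
      rw [hb]
      simp only [norm_mul, Complex.norm_I, Complex.norm_real, Complex.norm_ofNat,
        Complex.norm_intCast, mul_one, Real.norm_eq_abs, abs_of_pos Real.pi_pos]
    rw [e1, mul_pow]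
    apply mul_le_mul_of_nonneg_right _ (by positivity)
    have h7 := hH n hn
    have hpi := Real.pi_pos
    gcongr
  have h7 : √(∑ n ∈ S, ‖b n‖ ^ 2) ≤ 2 * Real.pi * H * √A := by
    have hpi := Real.pi_pos
    calc √(∑ n ∈ S, ‖b n‖ ^ 2) ≤ √((2 * Real.pi * H) ^ 2 * A) := Real.sqrt_le_sqrt h6
      _ = 2 * Real.pi * H * √A := by
          rw [Real.sqrt_mul (by positivity), Real.sqrt_sq (by positivity)]
  have h8 : √A * √(∑ n ∈ S, ‖b n‖ ^ 2) ≤ 2 * Real.pi * H * A := by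
    calc √A * √(∑ n ∈ S, ‖b n‖ ^ 2) ≤ √A * (2 * Real.pi * H * √A) :=
          mul_le_mul_of_nonneg_left h7 (Real.sqrt_nonneg _)
      _ = 2 * Real.pi * H * (√A * √A) := by ring
      _ = 2 * Real.pi * H * A := by rw [Real.mul_self_sqrt hA0]
  have h9 : (1 / δ) * ∑ α ∈ P, (∫ t in (α - δ / 2)..(α + δ / 2), ‖F t‖ ^ 2) ≤ (1 / δ) * A := by
    rw [← h4]
    exact mul_le_mul_of_nonneg_left h2 (by positivity)
  calc ∑ α ∈ P, ‖F α‖ ^ 2 ≤ _ := h1
    _ ≤ (1 / δ) * A + 2 * Real.pi * H * A := add_le_add h9 (h3.trans (h5.trans h8))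
    _ = (1 / δ + 2 * Real.pi * H) * A := by ring

/-- **Large sieve for separated points, `M < n ≤ M + N`** (`N ≥ 1`).
Proof.  Let `K = M + N / 2` (natural division) and `S = Ioc (M - K) (M + N - K)` in `ℤ`, so that
`|n| ≤ N/2 + 1` for `n ∈ S` and `2 π (N/2 + 1) ≤ 3 π N ≤ 10 N`.  With `m = n - K`,
`∑_{n} a_n e(n α) = e(K α) ∑_{m ∈ S} a_{m+K} e(m α)`, `‖e(K α)‖ = 1`.  Apply `ls_symm` with the coefficients
`m ↦ a (m + K).toNat`. -/
theorem ls_points (P : Finset ℝ) (δ c : ℝ) (hδ : 0 < δ)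
    (hP : ∀ α ∈ P, c + δ / 2 ≤ α ∧ α ≤ c + 1 - δ / 2)
    (hsep : ∀ α ∈ P, ∀ β ∈ P, α ≠ β → δ ≤ |α - β|)
    (M N : ℕ) (hN : 1 ≤ N) (a : ℕ → ℂ) :
    ∑ α ∈ P, ‖∑ n ∈ Ioc M (M + N), a n * ee (n * α)‖ ^ 2
      ≤ (1 / δ + 10 * N) * ∑ n ∈ Ioc M (M + N), ‖a n‖ ^ 2 := by
  obtain ⟨K, hK⟩ : ∃ K : ℕ, K = M + N / 2 := ⟨_, rfl⟩
  have hre : ∀ g : ℕ → ℂ, ∀ α : ℝ, ∑ n ∈ Ioc M (M + N), g n * ee (n * α)
      = ee (K * α) * ∑ m ∈ Ioc ((M : ℤ) - K) (M + N - K), g (m + K).toNat * ee (m * α) := by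
    intro g α
    rw [Finset.mul_sum]
    refine Finset.sum_nbij' (fun n : ℕ => (n : ℤ) - K) (fun m : ℤ => (m + K).toNat)
      ?_ ?_ ?_ ?_ ?_
    · intro n hn
      rw [Finset.mem_Ioc] at hn ⊢
      omega
    · intro m hm
      rw [Finset.mem_Ioc] at hm ⊢
      omega
    · intro n hn
      simp
    · intro m hm
      rw [Finset.mem_Ioc] at hm
      omega
    · intro n hn
      have e1 : ((n : ℤ) - K + K).toNat = n := by simp
      rw [e1]
      have e2 : ee (n * α) = ee (K * α) * ee (((n : ℤ) - K : ℤ) * α) := by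
        rw [← Pool.Agent.helper66.VK.ee_add]
        congr 1
        push_cast
        ring
      rw [e2]
      ring
  have hre2 : ∑ n ∈ Ioc M (M + N), ‖a n‖ ^ 2
      = ∑ m ∈ Ioc ((M : ℤ) - K) (M + N - K), ‖a (m + K).toNat‖ ^ 2 := by
    refine Finset.sum_nbij' (fun n : ℕ => (n : ℤ) - K) (fun m : ℤ => (m + K).toNat)
      ?_ ?_ ?_ ?_ ?_
    · intro n hn
      rw [Finset.mem_Ioc] at hn ⊢
      omega
    · intro m hm
      rw [Finset.mem_Ioc] at hm ⊢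
      omega
    · intro n hn
      simp
    · intro m hm
      rw [Finset.mem_Ioc] at hm
      omega
    · intro n hn
      have e1 : ((n : ℤ) - K + K).toNat = n := by simp
      rw [e1]
  have hS : ∀ m ∈ Ioc ((M : ℤ) - K) (M + N - K), |(m : ℝ)| ≤ (N : ℝ) / 2 + 1 := by
    intro m hm
    rw [Finset.mem_Ioc] at hm
    have h1 : 2 * m ≤ N + 2 := by omega
    have h2 : -((N : ℤ) + 2) ≤ 2 * m := by omega
    have h1' : 2 * (m : ℝ) ≤ N + 2 := by exact_mod_cast h1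
    have h2' : -((N : ℝ) + 2) ≤ 2 * m := by exact_mod_cast h2
    rw [abs_le]
    constructor <;> linarith
  have hmain := ls_symm P δ c hδ hP hsep (Ioc ((M : ℤ) - K) (M + N - K)) ((N : ℝ) / 2 + 1) hS
    (fun m => a (m + K).toNat)
  have hcongr : ∑ α ∈ P, ‖∑ n ∈ Ioc M (M + N), a n * ee (n * α)‖ ^ 2
      = ∑ α ∈ P, ‖∑ m ∈ Ioc ((M : ℤ) - K) (M + N - K), a (m + K).toNat * ee (m * α)‖ ^ 2 := by
    apply Finset.sum_congr rfl
    intro α _
    rw [hre a α, norm_mul, Pool.Agent.helper66.VK.norm_ee, one_mul]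
  rw [hcongr, hre2]
  refine hmain.trans ?_
  apply mul_le_mul_of_nonneg_right _ (Finset.sum_nonneg fun n _ => by positivity)
  have hN' : (1 : ℝ) ≤ N := by exact_mod_cast hN
  have hpi := Real.pi_lt_d2
  nlinarith

end BVM
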