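import Pool.Agent.helper73.BV.Dual
import Pool.Agent.helper73.BV.Farey

/-!
# BVM A2: the multiplicative large sieve
-/

open Finset
open Pool.Agent.helper66.VK (ee)

namespace BVM

/-- **The large sieve for primitive characters.** -/
theorem largeSieve (Q M N : ℕ) (hN : 1 ≤ N) (a : ℕ → ℂ) :
    ∑ q ∈ Icc 1 Q, ∑ χ ∈ prim q, ((q : ℝ) / q.totient) *
        ‖∑ n ∈ Ioc M (M + N), a n * χ (n : ZMod q)‖ ^ 2
      ≤ 10 * (N + (Q : ℝ) ^ 2) * ∑ n ∈ Ioc M (M + N), ‖a n‖ ^ 2 :=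
  (sum_le_sum fun q hq => dual_one q (mem_Icc.mp hq).1 _ a).trans (farey_ls Q M N hN a)

end BVM
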