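import Pool.Agent.helper73.BV.Abel
import Pool.Agent.helper73.BV.PV

/-!
# BVM A2: Vaughan's identity for the Riesz sums and the type I bounds
-/

open Finset ArithmeticFunction
open Pool.Agent.helper66.VK (aV bV)

namespace BVM

/-- The type II part of `rieszChi χ u`. -/
noncomputable def sumII {q : ℕ} (χ : DirichletCharacter ℂ q) (U V : ℕ) (u : ℝ) : ℂ :=
  ∑ m ∈ Ioc U (⌊u⌋₊ / V), (bV U m : ℂ) *
    ∑ c ∈ Ioc V (⌊u⌋₊ / m), ((vonMangoldt c : ℝ) : ℂ) *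
      (χ ((c * m : ℕ) : ZMod q) * ((rz (((c * m : ℕ) : ℝ) / u) : ℝ) : ℂ))

theorem TypeI_split (f : ℕ → ℂ) (V N : ℕ) :
    ∑ n ∈ Icc 1 N, f n = ∑ n ∈ Icc 1 (min V N), f n + ∑ n ∈ Ioc V N, f n := by
  rw [← Finset.sum_union]
  · congr 1
    ext n
    simp only [Finset.mem_union, Finset.mem_Icc, Finset.mem_Ioc]
    omega
  · rw [Finset.disjoint_left]
    intro n h1 h2
    rw [Finset.mem_Icc] at h1
    rw [Finset.mem_Ioc] at h2
    omega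

theorem TypeI_rz {k : ℕ} {u : ℝ} (hu : 0 < u) :
    0 ≤ rz ((k : ℝ) / u) ∧ rz ((k : ℝ) / u) ≤ 1 := by
  unfold rz
  constructor
  · exact le_max_left _ _
  · apply max_le (by norm_num)
    have : 0 ≤ (k : ℝ) / u := by positivity
    linarith

/-- pull `χ(k)` out of the inner sums -/
theorem TypeI_pull {q : ℕ} (χ : DirichletCharacter ℂ q) (k a b : ℕ) (u : ℝ) (g : ℕ → ℂ) :
    ∑ m ∈ Ioc a b, g m * (χ ((k * m : ℕ) : ZMod q) * ((rz (((k * m : ℕ) : ℝ) / u) : ℝ) : ℂ))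
      = χ (k : ZMod q) * ∑ m ∈ Ioc a b, g m *
        (((rz (((k * m : ℕ) : ℝ) / u) : ℝ) : ℂ) * χ (m : ZMod q)) := by
  rw [Finset.mul_sum]
  apply Finset.sum_congr rfl
  intro m _
  rw [show ((k * m : ℕ) : ZMod q) = (k : ZMod q) * (m : ZMod q) from Nat.cast_mul k m, map_mul]
  ring

/-- **Vaughan's identity** for the Riesz sum (`V ≤ U`).
Proof.  Split `Icc 1 ⌊u⌋₊` at `V`.  For `V < n ≤ ⌊u⌋₊` use `Pool.Agent.helper66.VK.vaughan U V V ⌊u⌋₊` with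
`F n = χ n * rz (n/u)` (it does not need `V ≤ ⌊u⌋₊`).  In its last sum `m > U ≥ V`, so `V / m = 0` and
`(Ioc (V/m) (Q/m)).filter (V < ·) = Ioc V (Q/m)`. -/
theorem riesz_vaughan {q : ℕ} (χ : DirichletCharacter ℂ q) (U V : ℕ) (hV1 : 1 ≤ V) (hVU : V ≤ U)
    (u : ℝ) :
    rieszChi χ u =
      ∑ n ∈ Icc 1 (min V ⌊u⌋₊), ((vonMangoldt n : ℝ) : ℂ) * χ (n : ZMod q) * ((rz (n / u) : ℝ) : ℂ)
      + ∑ d ∈ Icc 1 U, ((moebius d : ℝ) : ℂ) * ∑ m ∈ Ioc (V / d) (⌊u⌋₊ / d), (Real.log m : ℂ) *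
          (χ ((d * m : ℕ) : ZMod q) * ((rz (((d * m : ℕ) : ℝ) / u) : ℝ) : ℂ))
      - ∑ k ∈ Icc 1 (U * V), (aV U V k : ℂ) * ∑ m ∈ Ioc (V / k) (⌊u⌋₊ / k),
          χ ((k * m : ℕ) : ZMod q) * ((rz (((k * m : ℕ) : ℝ) / u) : ℝ) : ℂ)
      + sumII χ U V u := by
  have hsplit := TypeI_split (fun n : ℕ => ((vonMangoldt n : ℝ) : ℂ) * χ (n : ZMod q) *
    ((rz (n / u) : ℝ) : ℂ)) V ⌊u⌋₊
  have hv := Pool.Agent.helper66.VK.vaughan U V V ⌊u⌋₊ hV1 le_rfl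
    (fun n : ℕ => χ (n : ZMod q) * ((rz ((n : ℝ) / u) : ℝ) : ℂ))
  have e1 : ∑ n ∈ Ioc V ⌊u⌋₊, ((vonMangoldt n : ℝ) : ℂ) * χ (n : ZMod q) * ((rz (n / u) : ℝ) : ℂ)
      = ∑ n ∈ Ioc V ⌊u⌋₊, ((vonMangoldt n : ℝ) : ℂ) *
        (χ (n : ZMod q) * ((rz ((n : ℝ) / u) : ℝ) : ℂ)) :=
    Finset.sum_congr rfl fun n _ => by ring
  unfold rieszChi
  rw [hsplit, e1, hv]
  have e2 : ∑ m ∈ Ioc U (⌊u⌋₊ / V), (bV U m : ℂ) *
      ∑ c ∈ (Ioc (V / m) (⌊u⌋₊ / m)).filter (V < ·), ((vonMangoldt c : ℝ) : ℂ) *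
        (χ ((c * m : ℕ) : ZMod q) * ((rz (((c * m : ℕ) : ℝ) / u) : ℝ) : ℂ)) = sumII χ U V u := by
    unfold sumII
    apply Finset.sum_congr rfl
    intro m hm
    rw [Finset.mem_Ioc] at hm
    have hm0 : V / m = 0 := Nat.div_eq_of_lt (by omega)
    congr 1
    apply Finset.sum_congr _ (fun _ _ => rfl)
    ext c
    simp only [Finset.mem_filter, Finset.mem_Ioc, hm0]
    omega
  rw [e2]
  ring

/-- **Type I bound.**
Proof.  Let `H = √q (1 + log q)`, `N = ⌊u⌋₊ ≤ x`.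
First sum of `riesz_vaughan`: `Λ n ≤ log n ≤ log V` (`vonMangoldt_le_log`), `|χ| ≤ 1`, `0 ≤ rz ≤ 1`: `≤ V log V`.
Second: `χ(dm) = χ(d) χ(m)`, `|χ(d)| ≤ 1`, `|μ(d)| ≤ 1`; `abel_log_anti` with `G = χ`, `C = H` (`polya_vinogradov`),
`w m = rz (d m/u)` (`rz_antitone`): inner sum `≤ 2 log(N/d) H ≤ 2 H log x`; total `≤ 2 U H log x`.
Third: `|aV U V k| ≤ log k ≤ log (U V)` (`abs_aV_le`), inner sum `≤ H` (`abel_anti`): total `≤ U V log (U V) H`. -/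
theorem typeI_bound {q : ℕ} (hq : 1 < q) (χ : DirichletCharacter ℂ q) (hχ : χ.IsPrimitive)
    (U V : ℕ) (hV1 : 1 ≤ V) (hVU : V ≤ U) (x u : ℝ) (hx : 1 ≤ x) (hu : 0 < u) (hux : u ≤ x) :
    ‖rieszChi χ u‖ ≤ V * Real.log V
      + √q * (1 + Real.log q) * (2 * U * Real.log x + U * V * Real.log (U * V))
      + ‖sumII χ U V u‖ := by
  rw [riesz_vaughan χ U V hV1 hVU u]
  obtain ⟨H, hH⟩ : ∃ H : ℝ, H = √q * (1 + Real.log q) := ⟨_, rfl⟩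
  have hq0 : (1 : ℝ) ≤ q := by exact_mod_cast hq.le
  have hH0 : 0 ≤ H := by
    rw [hH]
    have := Real.log_nonneg hq0
    positivity
  have hPV : ∀ a c : ℕ, ‖∑ m ∈ Ioc a c, χ (m : ZMod q)‖ ≤ H := fun a c => by
    rw [hH]; exact polya_vinogradov hq χ hχ a c
  have hχ1 : ∀ k : ZMod q, ‖χ k‖ ≤ 1 := fun k => DirichletCharacter.norm_le_one χ k
  have hNx : (⌊u⌋₊ : ℝ) ≤ x := (Nat.floor_le hu.le).trans hux
  have hlogx : 0 ≤ Real.log x := Real.log_nonneg hx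
  have hV1' : (1 : ℝ) ≤ V := by exact_mod_cast hV1
  -- the first sum
  have hA : ‖∑ n ∈ Icc 1 (min V ⌊u⌋₊), ((vonMangoldt n : ℝ) : ℂ) * χ (n : ZMod q) *
      ((rz (n / u) : ℝ) : ℂ)‖ ≤ V * Real.log V := by
    refine (norm_sum_le _ _).trans ?_
    have h1 : ∀ n ∈ Icc 1 (min V ⌊u⌋₊), ‖((vonMangoldt n : ℝ) : ℂ) * χ (n : ZMod q) *
        ((rz (n / u) : ℝ) : ℂ)‖ ≤ Real.log V := by
      intro n hn
      rw [Finset.mem_Icc] at hn
      have hn1 : (1 : ℝ) ≤ n := by exact_mod_cast hn.1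
      have hnV : (n : ℝ) ≤ V := by exact_mod_cast (hn.2.trans (min_le_left _ _))
      obtain ⟨r0, r1⟩ := TypeI_rz (k := n) hu
      rw [norm_mul, norm_mul, Complex.norm_real, Complex.norm_real, Real.norm_eq_abs,
        Real.norm_eq_abs, abs_of_nonneg vonMangoldt_nonneg, abs_of_nonneg r0]
      have h2 : vonMangoldt n ≤ Real.log V :=
        vonMangoldt_le_log.trans (Real.log_le_log (by linarith) hnV)
      have h3 := hχ1 (n : ZMod q)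
      have h4 : (0 : ℝ) ≤ vonMangoldt n := vonMangoldt_nonneg
      calc vonMangoldt n * ‖χ (n : ZMod q)‖ * rz (n / u) ≤ vonMangoldt n * 1 * 1 := by
            gcongr
        _ ≤ Real.log V := by linarith
    refine (Finset.sum_le_card_nsmul _ _ _ h1).trans ?_
    rw [nsmul_eq_mul, Nat.card_Icc]
    apply mul_le_mul_of_nonneg_right _ (Real.log_nonneg hV1')
    have : min V ⌊u⌋₊ + 1 - 1 ≤ V := by omega
    exact_mod_cast this
  -- the second sum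
  have hB : ‖∑ d ∈ Icc 1 U, ((moebius d : ℝ) : ℂ) * ∑ m ∈ Ioc (V / d) (⌊u⌋₊ / d),
      (Real.log m : ℂ) * (χ ((d * m : ℕ) : ZMod q) *
        ((rz (((d * m : ℕ) : ℝ) / u) : ℝ) : ℂ))‖ ≤ U * (2 * Real.log x * H) := by
    refine (norm_sum_le _ _).trans ?_
    have h1 : ∀ d ∈ Icc 1 U, ‖((moebius d : ℝ) : ℂ) * ∑ m ∈ Ioc (V / d) (⌊u⌋₊ / d),
        (Real.log m : ℂ) * (χ ((d * m : ℕ) : ZMod q) *
          ((rz (((d * m : ℕ) : ℝ) / u) : ℝ) : ℂ))‖ ≤ 2 * Real.log x * H := by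
      intro d hd
      rw [Finset.mem_Icc] at hd
      rw [TypeI_pull χ d (V / d) (⌊u⌋₊ / d) u (fun m => (Real.log m : ℂ)), norm_mul, norm_mul]
      obtain ⟨w1, w2, w3⟩ := rz_antitone d u hu
      have h2 := abel_log_anti (fun m => χ (m : ZMod q)) (fun m => rz (((d * m : ℕ) : ℝ) / u))
        w1 w2 w3 (V / d) (⌊u⌋₊ / d) H hH0 (fun c _ => hPV _ c)
      have h3 : Real.log ((⌊u⌋₊ / d : ℕ) : ℝ) ≤ Real.log x := by
        rcases Nat.eq_zero_or_pos (⌊u⌋₊ / d) with h0 | h0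
        · rw [h0]; simpa using hlogx
        · apply Real.log_le_log (by exact_mod_cast h0)
          have h4 : ((⌊u⌋₊ / d : ℕ) : ℝ) ≤ ⌊u⌋₊ := by exact_mod_cast Nat.div_le_self _ _
          exact h4.trans hNx
      have h5 : ‖((moebius d : ℝ) : ℂ)‖ ≤ 1 := by
        rw [Complex.norm_real, Real.norm_eq_abs]
        have h := @abs_moebius_le_one d
        exact_mod_cast h
      have h6 := hχ1 (d : ZMod q)
      have h7 : 2 * Real.log ((⌊u⌋₊ / d : ℕ) : ℝ) * H ≤ 2 * Real.log x * H := by gcongr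
      have h8 := h2.trans h7
      calc ‖((moebius d : ℝ) : ℂ)‖ * (‖χ (d : ZMod q)‖ * _) ≤ 1 * (1 * (2 * Real.log x * H)) := by
            gcongr
        _ = 2 * Real.log x * H := by ring
    refine (Finset.sum_le_card_nsmul _ _ _ h1).trans ?_
    rw [nsmul_eq_mul, Nat.card_Icc]
    simp
  -- the third sum
  have hC : ‖∑ k ∈ Icc 1 (U * V), (aV U V k : ℂ) * ∑ m ∈ Ioc (V / k) (⌊u⌋₊ / k),
      χ ((k * m : ℕ) : ZMod q) * ((rz (((k * m : ℕ) : ℝ) / u) : ℝ) : ℂ)‖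
        ≤ ((U * V : ℕ) : ℝ) * (Real.log (U * V) * H) := by
    refine (norm_sum_le _ _).trans ?_
    have h1 : ∀ k ∈ Icc 1 (U * V), ‖(aV U V k : ℂ) * ∑ m ∈ Ioc (V / k) (⌊u⌋₊ / k),
        χ ((k * m : ℕ) : ZMod q) * ((rz (((k * m : ℕ) : ℝ) / u) : ℝ) : ℂ)‖
          ≤ Real.log (U * V) * H := by
      intro k hk
      rw [Finset.mem_Icc] at hk
      have hp := TypeI_pull χ k (V / k) (⌊u⌋₊ / k) u (fun _ => 1)
      simp only [one_mul] at hp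
      rw [hp, norm_mul, norm_mul]
      obtain ⟨w1, w2, w3⟩ := rz_antitone k u hu
      have h2 := abel_anti (fun m => χ (m : ZMod q)) (fun m => rz (((k * m : ℕ) : ℝ) / u))
        w1 w2 w3 (V / k) (⌊u⌋₊ / k) H hH0 (fun c _ => hPV _ c)
      have hk1 : (1 : ℝ) ≤ k := by exact_mod_cast hk.1
      have hkUV : (k : ℝ) ≤ U * V := by exact_mod_cast hk.2
      have h5 : ‖(aV U V k : ℂ)‖ ≤ Real.log (U * V) := by
        rw [Complex.norm_real, Real.norm_eq_abs]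
        exact (Pool.Agent.helper66.VK.abs_aV_le U V k hk.1).trans
          (Real.log_le_log (by linarith) hkUV)
      have h6 := hχ1 (k : ZMod q)
      have h7 : 0 ≤ Real.log ((U : ℝ) * V) := Real.log_nonneg (by linarith)
      calc ‖(aV U V k : ℂ)‖ * (‖χ (k : ZMod q)‖ * _) ≤ Real.log (U * V) * (1 * H) := by
            gcongr
        _ = Real.log (U * V) * H := by ring
    refine (Finset.sum_le_card_nsmul _ _ _ h1).trans ?_
    rw [nsmul_eq_mul, Nat.card_Icc]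
    simp
  rw [← hH]
  refine (norm_add_le _ _).trans ?_
  have h1 := norm_sub_le (∑ n ∈ Icc 1 (min V ⌊u⌋₊), ((vonMangoldt n : ℝ) : ℂ) * χ (n : ZMod q) *
      ((rz (n / u) : ℝ) : ℂ)
      + ∑ d ∈ Icc 1 U, ((moebius d : ℝ) : ℂ) * ∑ m ∈ Ioc (V / d) (⌊u⌋₊ / d), (Real.log m : ℂ) *
          (χ ((d * m : ℕ) : ZMod q) * ((rz (((d * m : ℕ) : ℝ) / u) : ℝ) : ℂ)))
    (∑ k ∈ Icc 1 (U * V), (aV U V k : ℂ) * ∑ m ∈ Ioc (V / k) (⌊u⌋₊ / k),
          χ ((k * m : ℕ) : ZMod q) * ((rz (((k * m : ℕ) : ℝ) / u) : ℝ) : ℂ))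
  have h2 := norm_add_le (∑ n ∈ Icc 1 (min V ⌊u⌋₊), ((vonMangoldt n : ℝ) : ℂ) * χ (n : ZMod q) *
      ((rz (n / u) : ℝ) : ℂ))
      (∑ d ∈ Icc 1 U, ((moebius d : ℝ) : ℂ) * ∑ m ∈ Ioc (V / d) (⌊u⌋₊ / d), (Real.log m : ℂ) *
          (χ ((d * m : ℕ) : ZMod q) * ((rz (((d * m : ℕ) : ℝ) / u) : ℝ) : ℂ)))
  have h3 : ((U * V : ℕ) : ℝ) * (Real.log (U * V) * H) = H * (U * V * Real.log (U * V)) := by
    push_cast; ring
  have h4 : U * (2 * Real.log x * H) = H * (2 * U * Real.log x) := by ring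
  rw [h3] at hC
  rw [h4] at hB
  have h5 : H * (2 * U * Real.log x + U * V * Real.log (U * V))
      = H * (2 * U * Real.log x) + H * (U * V * Real.log (U * V)) := by ring
  rw [h5]
  linarith

end BVM
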