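import Pool.Agent.helper73.BV.Blocks
import Pool.Agent.helper73.BV.Bil
import Pool.Agent.helper73.BV.Coef

/-!
# BVM A2: the type II bound on average over primitive characters
-/

open Finset ArithmeticFunction
open Pool.Agent.helper66.VK (aV bV)

namespace BVM

theorem TypeII_sqrt_add {a b : ℝ} (ha : 0 ≤ a) (hb : 0 ≤ b) : √(a + b ^ 2) ≤ √a + b := by
  apply Real.sqrt_le_iff.2
  refine ⟨by positivity, ?_⟩
  have h := Real.sq_sqrt ha
  have h' := Real.sqrt_nonneg a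
  nlinarith [mul_nonneg h' hb]

/-- The logarithmic factors. -/
theorem TypeII_log_bounds (x : ℝ) (hx : 1 ≤ x) (M K : ℕ) (hM1 : 1 ≤ M) (hK1 : 1 ≤ K)
    (hMx : (M : ℝ) ≤ x) (hKx : (K : ℝ) ≤ x) (s t : ℝ)
    (hs : s ≤ (1 + Real.log (2 * M)) ^ 4) (ht : t ≤ (1 + Real.log K) ^ 3) :
    √s * √t ≤ 4 * (1 + Real.log x) ^ 4 := by
  have hl : 0 ≤ Real.log x := Real.log_nonneg hx
  have hM0 : (0 : ℝ) < M := by exact_mod_cast hM1
  have hK0 : (1 : ℝ) ≤ K := by exact_mod_cast hK1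
  have hM0' : (1 : ℝ) ≤ M := by exact_mod_cast hM1
  have h2 : Real.log 2 ≤ 1 := by
    have := Real.log_two_lt_d9
    linarith
  have hlM : Real.log (2 * M) ≤ 1 + Real.log x := by
    rw [Real.log_mul (by norm_num) hM0.ne']
    have := Real.log_le_log hM0 hMx
    linarith
  have hlM0 : 0 ≤ Real.log (2 * M) := Real.log_nonneg (by linarith)
  have hlK : Real.log K ≤ Real.log x := Real.log_le_log (by linarith) hKx
  have hlK0 : 0 ≤ Real.log K := Real.log_nonneg hK0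
  have e1 : √s ≤ (2 * (1 + Real.log x)) ^ 2 := by
    apply Real.sqrt_le_iff.2
    refine ⟨by positivity, hs.trans ?_⟩
    rw [← pow_mul]
    exact pow_le_pow_left₀ (by linarith) (by linarith) 4
  have e2 : √t ≤ (1 + Real.log x) ^ 2 := by
    apply Real.sqrt_le_iff.2
    refine ⟨by positivity, ht.trans ?_⟩
    rw [← pow_mul]
    calc (1 + Real.log K) ^ 3 ≤ (1 + Real.log x) ^ 3 := pow_le_pow_left₀ (by linarith) (by linarith) 3
      _ ≤ (1 + Real.log x) ^ 4 := pow_le_pow_right₀ (by linarith) (by norm_num)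
  calc √s * √t ≤ (2 * (1 + Real.log x)) ^ 2 * (1 + Real.log x) ^ 2 :=
        mul_le_mul e1 e2 (Real.sqrt_nonneg _) (by positivity)
    _ = 4 * (1 + Real.log x) ^ 4 := by ring

/-- Elementary: `√u √(M+R^2) √(K+R^2) ≤ x + R x/√U + R x/√V + R^2 √x` if `0 < u ≤ x`, `M K ≤ u`,
`M ≤ x/V`, `K ≤ x/U`.
Proof: `(M+R^2)(K+R^2) = MK + R^2 M + R^2 K + R^4`, `√(a+b) ≤ √a + √b` (`Real.sqrt_add_le_add_sqrt`... ), so the product
of the last two roots is `≤ √u + R √M + R √K + R^2`; multiply by `√u ≤ √x`: `√u √u = u ≤ x`,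
`√x √M ≤ √x √(x/V) = x/√V`, `√x √K ≤ x/√U`. -/
theorem block_elem (x u M K R U V : ℝ) (hu : 0 < u) (hux : u ≤ x) (hM : 0 ≤ M) (hK : 0 ≤ K)
    (hR : 0 ≤ R) (hU : 1 ≤ U) (hV : 1 ≤ V) (hMK : M * K ≤ u) (hMV : M ≤ x / V) (hKU : K ≤ x / U) :
    √u * (√(M + R ^ 2) * √(K + R ^ 2)) ≤ x + R * (x / √U) + R * (x / √V) + R ^ 2 * √x := by
  have hx : 0 ≤ x := hu.le.trans hux
  have h1 : √(M + R ^ 2) ≤ √M + R := TypeII_sqrt_add hM hR
  have h2 : √(K + R ^ 2) ≤ √K + R := TypeII_sqrt_add hK hR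
  have h3 : √(M + R ^ 2) * √(K + R ^ 2) ≤ (√M + R) * (√K + R) :=
    mul_le_mul h1 h2 (Real.sqrt_nonneg _) (by positivity)
  have h4 : √u ≤ √x := Real.sqrt_le_sqrt hux
  have h5 : √u * (√M * √K) ≤ x := by
    rw [← Real.sqrt_mul hM]
    calc √u * √(M * K) ≤ √u * √u := mul_le_mul_of_nonneg_left (Real.sqrt_le_sqrt hMK) (Real.sqrt_nonneg _)
      _ = u := Real.mul_self_sqrt hu.le
      _ ≤ x := hux
  have h6 : √u * √M ≤ x / √V := by
    calc √u * √M ≤ √x * √(x / V) := mul_le_mul h4 (Real.sqrt_le_sqrt hMV) (Real.sqrt_nonneg _) (Real.sqrt_nonneg _)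
      _ = x / √V := by rw [Real.sqrt_div hx, ← mul_div_assoc, Real.mul_self_sqrt hx]
  have h7 : √u * √K ≤ x / √U := by
    calc √u * √K ≤ √x * √(x / U) := mul_le_mul h4 (Real.sqrt_le_sqrt hKU) (Real.sqrt_nonneg _) (Real.sqrt_nonneg _)
      _ = x / √U := by rw [Real.sqrt_div hx, ← mul_div_assoc, Real.mul_self_sqrt hx]
  calc √u * (√(M + R ^ 2) * √(K + R ^ 2)) ≤ √u * ((√M + R) * (√K + R)) :=
        mul_le_mul_of_nonneg_left h3 (Real.sqrt_nonneg _)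
    _ = √u * (√M * √K) + R * (√u * √K) + R * (√u * √M) + R ^ 2 * √u := by ring
    _ ≤ x + R * (x / √U) + R * (x / √V) + R ^ 2 * √x := by gcongr

/-- **One block.**
Proof.  `M ≤ N/V`, `N = ⌊u⌋₊`, so `N ≥ M V ≥ 1`; `K = N/M ≥ V ≥ 1`.  `bilinear` with `a m = bV U m`,
`b n = if V < n then Λ n else 0` (this is `blockII`).  `sum_bV_sq_div`: `√(∑ |a|^2/m) ≤ (1+log 2M)^2 ≤ (2 (1 + log x))^2`
(`M ≤ N ≤ x`, `log (2x) = log 2 + log x ≤ 1 + log x`); `sum_vM_sq_div`: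
`√(∑ |b|^2/n) ≤ √((1+log K)^3) ≤ (1 + log x)^2`.  `block_elem` with `M K ≤ N ≤ u`, `M ≤ N/V ≤ x/V`,
`K ≤ N/M ≤ x/U`.  Total `≤ 20 * 4 (1+log x)^4 (...)`. -/
theorem block_bound (R U V M : ℕ) (hU : 1 ≤ U) (hV : 1 ≤ V) (x u : ℝ) (hx : 1 ≤ x) (hu : 0 < u)
    (hux : u ≤ x) (hUM : U ≤ M) (hM : M ≤ ⌊u⌋₊ / V) :
    ∑ q ∈ Icc 1 R, ∑ χ ∈ prim q, ((q : ℝ) / q.totient) * ‖blockII χ U V u M‖
      ≤ 100 * (1 + Real.log x) ^ 4 *
        (x + R * (x / √U) + R * (x / √V) + (R : ℝ) ^ 2 * √x) := by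
  set N := ⌊u⌋₊ with hN
  set K := N / M with hKdef
  have hM1 : 1 ≤ M := hU.trans hUM
  have hNu : (N : ℝ) ≤ u := Nat.floor_le hu.le
  have hMV : M * V ≤ N := (Nat.le_div_iff_mul_le (by omega)).1 hM
  have hVK : V ≤ K := (Nat.le_div_iff_mul_le (by omega)).2 (by rw [Nat.mul_comm]; exact hMV)
  have hK1 : 1 ≤ K := hV.trans hVK
  have hMKN : M * K ≤ N := Nat.mul_div_le N M
  have hMKr : (M : ℝ) * K ≤ N := by exact_mod_cast hMKN
  have hMVr : (M : ℝ) * V ≤ N := by exact_mod_cast hMV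
  have hUr : (1 : ℝ) ≤ U := by exact_mod_cast hU
  have hVr : (1 : ℝ) ≤ V := by exact_mod_cast hV
  have hMr : (1 : ℝ) ≤ M := by exact_mod_cast hM1
  have hKr : (1 : ℝ) ≤ K := by exact_mod_cast hK1
  have hUMr : (U : ℝ) ≤ M := by exact_mod_cast hUM
  have hMx : (M : ℝ) ≤ x := by nlinarith
  have hKx : (K : ℝ) ≤ x := by nlinarith
  have hb := bilinear R M K hM1 hK1 u hu (fun m => ((bV U m : ℝ) : ℂ))
    (fun n => ((if V < n then vonMangoldt n else 0 : ℝ) : ℂ))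
  have he := block_elem x u M K R U V hu hux (by positivity) (by positivity) (by positivity) hUr hVr
    (hMKr.trans hNu)
    (by rw [le_div_iff₀ (by linarith)]; linarith)
    (by
      rw [le_div_iff₀ (by linarith)]
      have : (K : ℝ) * U ≤ K * M := mul_le_mul_of_nonneg_left hUMr (by linarith)
      nlinarith)
  have hl := TypeII_log_bounds x hx M K hM1 hK1 hMx hKx _ _ (sum_bV_sq_div U M) (sum_vM_sq_div V K)
  have hlog : 0 ≤ Real.log x := Real.log_nonneg hx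
  calc ∑ q ∈ Icc 1 R, ∑ χ ∈ prim q, ((q : ℝ) / q.totient) * ‖blockII χ U V u M‖
      ≤ 20 * √u * (√(M + (R : ℝ) ^ 2) * √(K + (R : ℝ) ^ 2)) *
        (√(∑ m ∈ Ioc M (2 * M), ‖((bV U m : ℝ) : ℂ)‖ ^ 2 / m) *
          √(∑ n ∈ Ioc 0 K, ‖((if V < n then vonMangoldt n else 0 : ℝ) : ℂ)‖ ^ 2 / n)) := hb
    _ ≤ 20 * √u * (√(M + (R : ℝ) ^ 2) * √(K + (R : ℝ) ^ 2)) * (4 * (1 + Real.log x) ^ 4) :=
        mul_le_mul_of_nonneg_left hl (by positivity)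
    _ = 80 * (1 + Real.log x) ^ 4 * (√u * (√(M + (R : ℝ) ^ 2) * √(K + (R : ℝ) ^ 2))) := by ring
    _ ≤ 100 * (1 + Real.log x) ^ 4 *
        (x + R * (x / √U) + R * (x / √V) + (R : ℝ) ^ 2 * √x) := by
        have h0 : 0 ≤ √u * (√(M + (R : ℝ) ^ 2) * √(K + (R : ℝ) ^ 2)) := by positivity
        have h1 : 0 ≤ (1 + Real.log x) ^ 4 := by positivity
        have h2 := mul_le_mul_of_nonneg_left he h1
        have h3 := mul_nonneg h1 h0
        nlinarith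

/-- **Type II bound.**  Proof: `sumII_eq`, triangle inequality, exchange the sums, `block_bound` for every block
(`U ≤ 2^i U`) and `count_blocks`. -/
theorem typeII_bound (R U V : ℕ) (hU : 1 ≤ U) (hV : 1 ≤ V) (x u : ℝ) (hx : 1 ≤ x) (hu : 0 < u)
    (hux : u ≤ x) :
    ∑ q ∈ Icc 1 R, ∑ χ ∈ prim q, ((q : ℝ) / q.totient) * ‖sumII χ U V u‖
      ≤ 200 * (1 + Real.log x) ^ 5 *
        (x + R * (x / √U) + R * (x / √V) + (R : ℝ) ^ 2 * √x) := by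
  set E := x + R * (x / √U) + R * (x / √V) + (R : ℝ) ^ 2 * √x with hE
  set I := (range (Nat.log 2 ⌊u⌋₊ + 1)).filter (fun i => 2 ^ i * U ≤ ⌊u⌋₊ / V) with hI
  have hlog : 0 ≤ Real.log x := Real.log_nonneg hx
  have hE0 : 0 ≤ E := by
    rw [hE]
    positivity
  have hcard : (I.card : ℝ) ≤ 2 * (1 + Real.log x) := by
    have h1 : I.card ≤ Nat.log 2 ⌊u⌋₊ + 1 := by
      calc I.card ≤ (range (Nat.log 2 ⌊u⌋₊ + 1)).card := card_filter_le _ _
        _ = _ := card_range _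
    have h2 : (I.card : ℝ) ≤ ((Nat.log 2 ⌊u⌋₊ + 1 : ℕ) : ℝ) := by exact_mod_cast h1
    exact h2.trans (count_blocks x u hx hux)
  calc ∑ q ∈ Icc 1 R, ∑ χ ∈ prim q, ((q : ℝ) / q.totient) * ‖sumII χ U V u‖
      ≤ ∑ q ∈ Icc 1 R, ∑ χ ∈ prim q, ∑ i ∈ I, ((q : ℝ) / q.totient) * ‖blockII χ U V u (2 ^ i * U)‖ := by
        refine sum_le_sum fun q _ => sum_le_sum fun χ _ => ?_
        rw [← mul_sum, sumII_eq χ U V hU hV u hu]
        exact mul_le_mul_of_nonneg_left (norm_sum_le _ _) (by positivity)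
    _ = ∑ q ∈ Icc 1 R, ∑ i ∈ I, ∑ χ ∈ prim q, ((q : ℝ) / q.totient) * ‖blockII χ U V u (2 ^ i * U)‖ :=
        sum_congr rfl fun q _ => sum_comm
    _ = ∑ i ∈ I, ∑ q ∈ Icc 1 R, ∑ χ ∈ prim q, ((q : ℝ) / q.totient) * ‖blockII χ U V u (2 ^ i * U)‖ :=
        sum_comm
    _ ≤ ∑ i ∈ I, 100 * (1 + Real.log x) ^ 4 * E := by
        refine sum_le_sum fun i hi => ?_
        rw [hI, mem_filter] at hi
        exact block_bound R U V (2 ^ i * U) hU hV x u hx hu hux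
          (Nat.le_mul_of_pos_left U (by positivity)) hi.2
    _ = I.card * (100 * (1 + Real.log x) ^ 4 * E) := by rw [sum_const, nsmul_eq_mul]
    _ ≤ (2 * (1 + Real.log x)) * (100 * (1 + Real.log x) ^ 4 * E) :=
        mul_le_mul_of_nonneg_right hcard (by positivity)
    _ = 200 * (1 + Real.log x) ^ 5 * E := by ring

end BVM
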